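import Pool.Agent.H26.OS.Stm

/-! # Project OS: `S_ALM` -/

set_option autoImplicit false

namespace Pool.Agent.H26.OS

open Finset MeasureTheory Filter Topology Q198.CI Pool.Agent.H50.OI

theorem alm : S_ALM := by
  intro κ c c' hc hcc h
  set d : ℝ := (c + c') / 2 with hd
  have hd0 : 0 < d := by rw [hd]; linarith
  have hdc : 0 < c' - d := by rw [hd]; linarith
  have hd1 := h d (by rw [hd]; linarith)
  rw [eventually_atTop] at hd1
  obtain ⟨n0, hn0⟩ := hd1
  have hl2 : (1:ℝ) / 2 < Real.log 2 := by
    have := Real.log_two_gt_d9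
    linarith
  have hlt : Tendsto (fun i : ℕ => Real.log (i : ℝ)) atTop atTop :=
    Real.tendsto_log_atTop.comp tendsto_natCast_atTop_atTop
  have hit : Tendsto (fun i : ℕ => (i : ℝ)) atTop atTop := tendsto_natCast_atTop_atTop
  filter_upwards [eventually_ge_atTop n0, eventually_ge_atTop 3, hlt.eventually_ge_atTop 2,
    hlt.eventually_ge_atTop (2 * c' / (c' - d)), hit.eventually_ge_atTop (2 * d / (c' - d))]
    with i g1 g2 g3 g4 g5
  intro n hn1 hn2
  have hi0 : (0:ℝ) < i := by
    have : 0 < i := by omega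
    exact_mod_cast this
  have hnn : n0 ≤ n := le_trans g1 (le_trans Nat.lt_two_pow_self.le hn1)
  have h1 := hn0 n hnn
  rw [div_le_iff₀ hdc] at g4 g5
  -- `log n`
  have hnpos : (0:ℝ) < n := by
    have : 0 < n := lt_of_lt_of_le (by positivity) hn1
    exact_mod_cast this
  have hln1 : (i : ℝ) * Real.log 2 ≤ Real.log n := by
    have h2 : ((2:ℝ) ^ i) ≤ n := by exact_mod_cast hn1
    have h3 := Real.log_le_log (by positivity) h2
    rwa [Real.log_pow] at h3
  have hln2 : Real.log n ≤ ((i : ℝ) + 1) * Real.log 2 := by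
    have h2 : (n : ℝ) ≤ (2:ℝ) ^ (i + 1) := by exact_mod_cast hn2.le
    have h3 := Real.log_le_log hnpos h2
    rw [Real.log_pow] at h3
    push_cast at h3
    exact h3
  have hlog2 : -1 ≤ Real.log (Real.log 2) := by
    have h2 : Real.exp (-1) ≤ Real.log 2 := by
      have h3 : Real.exp (-1) ≤ 1 / 2 := by
        rw [Real.exp_neg]
        have h4 := Real.add_one_le_exp (1:ℝ)
        rw [inv_le_comm₀ (Real.exp_pos _) (by norm_num)]
        norm_num
        linarith
      linarith
    have h3 := Real.log_le_log (Real.exp_pos _) h2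
    rwa [Real.log_exp] at h3
  have hlln : Real.log i - 1 ≤ Real.log (Real.log n) := by
    have h2 := Real.log_le_log (by positivity) hln1
    rw [Real.log_mul hi0.ne' (by positivity)] at h2
    linarith
  have hpos1 : 0 < Real.log i - 1 := by linarith
  have hfrac : Real.log n / Real.log (Real.log n) ≤
      ((i : ℝ) + 1) * Real.log 2 / (Real.log i - 1) :=
    div_le_div₀ (by positivity) hln2 hpos1 hlln
  refine h1.trans ((mul_le_mul_of_nonneg_left hfrac hd0.le).trans ?_)
  have e1 : d * (((i : ℝ) + 1) * Real.log 2 / (Real.log i - 1)) =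
      (d * ((i : ℝ) + 1)) * Real.log 2 / (Real.log i - 1) := by ring
  have e2 : c' * ((i : ℝ) * Real.log 2 / Real.log i) = (c' * i) * Real.log 2 / Real.log i := by
    ring
  rw [e1, e2, div_le_div_iff₀ hpos1 (by linarith)]
  have key : d * ((i : ℝ) + 1) * Real.log i ≤ c' * i * (Real.log i - 1) := by
    nlinarith [mul_le_mul_of_nonneg_left g4 hi0.le,
      mul_le_mul_of_nonneg_right g5 (show (0:ℝ) ≤ Real.log i by linarith)]
  have hl0 : 0 ≤ Real.log 2 := by linarith
  nlinarith [mul_le_mul_of_nonneg_left key hl0]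

end Pool.Agent.H26.OS
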