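import Pool.Agent.H26.OS.Stm

/-! # OS-DR (helper58): rich intervals give `U_a = ∞` -/

set_option autoImplicit false

namespace Pool.Agent.H26.OS

open Finset MeasureTheory Filter Topology Q198.CI Pool.Agent.H50.OI

/-- pigeonhole: some interval `(x, x + ℓ]` contains many elements of `B` -/
theorem dr_pig (B : Finset ℕ) (s H : ℕ) (ℓ : ℝ) (hℓ : 0 < ℓ) (hH : ℓ ≤ H)
    (hB : ∀ n ∈ B, s ≤ n ∧ n < s + H) :
    ∃ t : ℕ, (t : ℝ) * ℓ < H ∧ ℓ * B.card ≤ 2 * H *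
      ((B.filter (fun n : ℕ => (s : ℝ) - 1 + t * ℓ < n ∧ (n : ℝ) ≤ (s : ℝ) - 1 + t * ℓ + ℓ)).card : ℝ) := by
  classical
  have hH0 : (0 : ℝ) < H := hℓ.trans_le hH
  set T : ℕ := ⌈(H : ℝ) / ℓ⌉₊ with hT
  have hT1 : (H : ℝ) / ℓ ≤ T := Nat.le_ceil _
  have hT2 : (T : ℝ) < H / ℓ + 1 := Nat.ceil_lt_add_one (by positivity)
  have h1 : 1 ≤ (H : ℝ) / ℓ := by rw [le_div_iff₀ hℓ]; linarith
  have hT0 : 0 < T := by
    have : (0 : ℝ) < T := by linarith
    exact_mod_cast this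
  -- the index of `n`
  let g : ℕ → ℕ := fun n => ⌈((n : ℝ) - s + 1) / ℓ⌉₊ - 1
  have hg : ∀ n ∈ B, g n ∈ range T ∧ (s : ℝ) - 1 + (g n : ℝ) * ℓ < n ∧
      (n : ℝ) ≤ (s : ℝ) - 1 + (g n : ℝ) * ℓ + ℓ := by
    intro n hn
    obtain ⟨hn1, hn2⟩ := hB n hn
    have hn1' : (s : ℝ) ≤ n := by exact_mod_cast hn1
    have hn2' : (n : ℝ) + 1 ≤ s + H := by exact_mod_cast hn2
    have hp : 0 < ((n : ℝ) - s + 1) / ℓ := by
      apply div_pos _ hℓ
      linarith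
    have hc0 : 0 < ⌈((n : ℝ) - s + 1) / ℓ⌉₊ := Nat.ceil_pos.2 hp
    obtain ⟨m, hm⟩ : ∃ m, ⌈((n : ℝ) - s + 1) / ℓ⌉₊ = m + 1 := ⟨_, (Nat.succ_pred_eq_of_pos hc0).symm⟩
    have hgm : g n = m := by
      simp only [g, hm]
      omega
    have hc1 : ((n : ℝ) - s + 1) / ℓ ≤ (m : ℝ) + 1 := by
      have := Nat.le_ceil (((n : ℝ) - s + 1) / ℓ)
      rw [hm] at this
      exact_mod_cast this
    have hc2 : (m : ℝ) < ((n : ℝ) - s + 1) / ℓ := by
      have h2 : m < ⌈((n : ℝ) - s + 1) / ℓ⌉₊ := by omega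
      exact Nat.lt_ceil.1 h2
    rw [hgm]
    rw [div_le_iff₀ hℓ] at hc1
    have hc2' := hc2
    rw [lt_div_iff₀ hℓ] at hc2'
    refine ⟨?_, by linarith, by linarith⟩
    rw [Finset.mem_range]
    have h3 : (m : ℝ) < T := by
      calc (m : ℝ) < ((n : ℝ) - s + 1) / ℓ := hc2
        _ ≤ H / ℓ := by
            apply div_le_div_of_nonneg_right _ hℓ.le
            linarith
        _ ≤ T := hT1
    exact_mod_cast h3
  have hmaps : ∀ n ∈ B, g n ∈ range T := fun n hn => (hg n hn).1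
  have hne : (range T).Nonempty := ⟨0, Finset.mem_range.2 hT0⟩
  obtain ⟨t, ht, htc⟩ : ∃ t ∈ range T, B.card ≤ T * (B.filter (fun n => g n = t)).card := by
    by_contra hcon
    push Not at hcon
    have h2 : B.card = ∑ t ∈ range T, (B.filter (fun n => g n = t)).card :=
      Finset.card_eq_sum_card_fiberwise hmaps
    have h3 : T * B.card = ∑ t ∈ range T, T * (B.filter (fun n => g n = t)).card := by
      rw [← Finset.mul_sum, ← h2]
    have h4 : ∑ t ∈ range T, T * (B.filter (fun n => g n = t)).card < ∑ _t ∈ range T, B.card :=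
      Finset.sum_lt_sum_of_nonempty hne hcon
    rw [← h3, Finset.sum_const, Finset.card_range, smul_eq_mul] at h4
    exact lt_irrefl _ h4
  refine ⟨t, ?_, ?_⟩
  · have h2 : t < T := Finset.mem_range.1 ht
    have h3 : t < ⌈(H : ℝ) / ℓ⌉₊ := h2
    have h4 := Nat.lt_ceil.1 h3
    rwa [lt_div_iff₀ hℓ] at h4
  · have hsub : B.filter (fun n => g n = t) ⊆ B.filter (fun n : ℕ =>
        (s : ℝ) - 1 + t * ℓ < n ∧ (n : ℝ) ≤ (s : ℝ) - 1 + t * ℓ + ℓ) := by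
      intro n hn
      obtain ⟨hn1, hn2⟩ := Finset.mem_filter.1 hn
      refine Finset.mem_filter.2 ⟨hn1, ?_⟩
      rw [← hn2]
      exact (hg n hn1).2
    have hcard := Finset.card_le_card hsub
    set F := B.filter (fun n : ℕ => (s : ℝ) - 1 + t * ℓ < n ∧ (n : ℝ) ≤ (s : ℝ) - 1 + t * ℓ + ℓ)
    have h5 : (B.card : ℝ) ≤ T * (F.card : ℝ) := by
      calc (B.card : ℝ) ≤ ((T * (B.filter (fun n => g n = t)).card : ℕ) : ℝ) := by exact_mod_cast htc
        _ ≤ ((T * F.card : ℕ) : ℝ) := by exact_mod_cast Nat.mul_le_mul_left T hcard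
        _ = _ := by push_cast; ring
    have h6 : (T : ℝ) ≤ 2 * (H / ℓ) := by linarith
    have h7 : (0 : ℝ) ≤ F.card := Nat.cast_nonneg _
    calc ℓ * B.card ≤ ℓ * (T * F.card) := mul_le_mul_of_nonneg_left h5 hℓ.le
      _ ≤ ℓ * (2 * (H / ℓ) * F.card) :=
          mul_le_mul_of_nonneg_left (mul_le_mul_of_nonneg_right h6 h7) hℓ.le
      _ = 2 * H * F.card := by field_simp

theorem dr_point (A : Set ℕ) (a : ℝ) (ha : 0 < a) (b : ℝ) (hb : a ≤ b) (r : ℕ) (hr : 3 ≤ r)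
    (h : RichAt A b r) : ∃ x : ℝ, (r : ℝ) ≤ x ∧
      (Real.log 2 / 4 * (1 / 3) ^ a) * r ≤ R A a x := by
  classical
  obtain ⟨i, s, H, hri, his, hsi, hH, B, hB, hBc⟩ := h
  have hl2' : 0 < Real.log 2 := Real.log_pos (by norm_num)
  have hl2 : Real.log 2 < 0.6931471808 := Real.log_two_lt_d9
  have hi3 : 3 ≤ i := hr.trans hri
  have hi3' : (3 : ℝ) ≤ i := by exact_mod_cast hi3
  have hri' : (r : ℝ) ≤ i := by exact_mod_cast hri
  have h2i : i < 2 ^ i := Nat.lt_two_pow_self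
  set ℓ : ℝ := (((i : ℝ) - 1) * Real.log 2) ^ a with hℓ
  have hℓb : 0 < ((i : ℝ) - 1) * Real.log 2 := by
    apply mul_pos _ hl2'
    linarith
  have hℓ0 : 0 < ℓ := Real.rpow_pos_of_pos hℓb a
  have hℓH : ℓ ≤ H := by
    calc ℓ ≤ (i : ℝ) ^ a := Real.rpow_le_rpow hℓb.le (by nlinarith) ha.le
      _ ≤ (i : ℝ) ^ b := Real.rpow_le_rpow_of_exponent_le (by linarith) hb
      _ ≤ H := hH
  obtain ⟨t, ht, htc⟩ := dr_pig B s H ℓ hℓ0 hℓH (fun n hn => (hB n hn).2)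
  set x : ℝ := (s : ℝ) - 1 + t * ℓ with hx
  have hs' : ((2 : ℝ)) ^ i ≤ s := by exact_mod_cast his
  have hs2 : (s : ℝ) + H ≤ 2 ^ (i + 1) := by exact_mod_cast hsi
  have htℓ : 0 ≤ (t : ℝ) * ℓ := by positivity
  have hxs : (s : ℝ) - 1 ≤ x := by linarith
  have hi1 : (i : ℝ) + 1 ≤ s := by exact_mod_cast (by omega : i + 1 ≤ s)
  have hx1 : (r : ℝ) ≤ x := by linarith
  have hx0 : 0 < x := by linarith
  have hxu : x ≤ 2 ^ (i + 1) := by linarith
  obtain ⟨j, hj⟩ : ∃ j, i = j + 1 := ⟨i - 1, by omega⟩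
  have hxl : (2 : ℝ) ^ j ≤ x := by
    have h1 : (1 : ℝ) ≤ 2 ^ j := one_le_pow₀ (by norm_num)
    have h2 : (2 : ℝ) ^ i = 2 * 2 ^ j := by rw [hj, pow_succ]; ring
    linarith
  have hlog1 : ((i : ℝ) - 1) * Real.log 2 ≤ Real.log x := by
    have h1 : (j : ℝ) * Real.log 2 ≤ Real.log x := by
      rw [← Real.log_pow]
      exact Real.log_le_log (by positivity) hxl
    have h2 : (i : ℝ) = j + 1 := by exact_mod_cast hj
    rw [h2]
    linarith
  have hlog2 : Real.log x ≤ ((i : ℝ) + 1) * Real.log 2 := by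
    have h1 : Real.log x ≤ ((i + 1 : ℕ) : ℝ) * Real.log 2 := by
      rw [← Real.log_pow]
      exact Real.log_le_log hx0 hxu
    push_cast at h1
    exact h1
  have hlx0 : 0 < Real.log x := hℓb.trans_le hlog1
  have hpa : ℓ ≤ Real.log x ^ a := Real.rpow_le_rpow hℓb.le hlog1 ha.le
  have hpb : Real.log x ^ a ≤ (((i : ℝ) + 1) * Real.log 2) ^ a :=
    Real.rpow_le_rpow hlx0.le hlog2 ha.le
  refine ⟨x, hx1, ?_⟩
  set F := B.filter (fun n : ℕ => x < n ∧ (n : ℝ) ≤ x + ℓ) with hF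
  have hfin : {n : ℕ | n ∈ A ∧ x < n ∧ (n : ℝ) ≤ x + Real.log x ^ a}.Finite := by
    apply (Set.finite_Iic ⌊x + Real.log x ^ a⌋₊).subset
    rintro n ⟨-, -, hn⟩
    exact Nat.le_floor hn
  have hcard : (F.card : ℝ) ≤ ({n : ℕ | n ∈ A ∧ x < n ∧ (n : ℝ) ≤ x + Real.log x ^ a}.ncard : ℝ) := by
    have h1 : F.card ≤ {n : ℕ | n ∈ A ∧ x < n ∧ (n : ℝ) ≤ x + Real.log x ^ a}.ncard := by
      rw [← Set.ncard_coe_finset]
      refine Set.ncard_le_ncard ?_ hfin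
      intro n hn
      obtain ⟨hn1, hn2, hn3⟩ := Finset.mem_filter.1 (Finset.mem_coe.1 hn)
      exact ⟨(hB n hn1).1, hn2, by linarith⟩
    exact_mod_cast h1
  unfold R
  have hH0 : (0 : ℝ) < H := hℓ0.trans_le hℓH
  -- r ℓ ≤ 2 i F.card
  have hFc : (r : ℝ) * ℓ ≤ 2 * i * F.card := by
    have h1 : ((r : ℝ) * H) * ℓ ≤ (2 * i * F.card) * H := by
      calc ((r : ℝ) * H) * ℓ ≤ (i * B.card) * ℓ := mul_le_mul_of_nonneg_right hBc hℓ0.le
        _ = i * (ℓ * B.card) := by ring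
        _ ≤ i * (2 * H * F.card) := mul_le_mul_of_nonneg_left htc (Nat.cast_nonneg _)
        _ = (2 * i * F.card) * H := by ring
    have h2 : ((r : ℝ) * ℓ) * H ≤ (2 * i * F.card) * H := by linarith
    exact le_of_mul_le_mul_right h2 hH0
  have hratio : (1 / 3 : ℝ) ^ a * (((i : ℝ) + 1) * Real.log 2) ^ a ≤ ℓ := by
    rw [← Real.mul_rpow (by norm_num) (by positivity)]
    refine Real.rpow_le_rpow (by positivity) ?_ ha.le
    nlinarith
  have h3 : (1 / 3 : ℝ) ^ a ≤ ℓ / Real.log x ^ a := by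
    rw [le_div_iff₀ (Real.rpow_pos_of_pos hlx0 a)]
    calc (1 / 3 : ℝ) ^ a * Real.log x ^ a ≤ (1 / 3 : ℝ) ^ a * (((i : ℝ) + 1) * Real.log 2) ^ a :=
          mul_le_mul_of_nonneg_left hpb (by positivity)
      _ ≤ ℓ := hratio
  have hxa : 0 < Real.log x ^ a := Real.rpow_pos_of_pos hlx0 a
  have hFc' : (r : ℝ) * ℓ / (2 * i) ≤ F.card := by
    rw [div_le_iff₀ (by positivity)]
    linarith
  have h4 : Real.log 2 / 4 ≤ Real.log x / (2 * i) := by
    rw [le_div_iff₀ (by positivity)]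
    nlinarith
  calc Real.log 2 / 4 * (1 / 3) ^ a * r ≤ Real.log x / (2 * i) * (ℓ / Real.log x ^ a) * r := by
        apply mul_le_mul_of_nonneg_right _ (Nat.cast_nonneg _)
        exact mul_le_mul h4 h3 (by positivity) (by positivity)
    _ = Real.log x / Real.log x ^ a * ((r : ℝ) * ℓ / (2 * i)) := by field_simp
    _ ≤ Real.log x / Real.log x ^ a * F.card :=
        mul_le_mul_of_nonneg_left hFc' (by positivity)
    _ ≤ _ := mul_le_mul_of_nonneg_left hcard (by positivity)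

theorem dr : S_DR := by
  intro A a ha h
  unfold Up
  rw [EReal.eq_top_iff_forall_lt]
  intro y
  have hl2' : 0 < Real.log 2 := Real.log_pos (by norm_num)
  set c : ℝ := Real.log 2 / 4 * (1 / 3) ^ a with hc
  have hc0 : 0 < c := by positivity
  have h1 : ((y + 1 : ℝ) : EReal) ≤ limsup (fun x : ℝ => ((R A a x : ℝ) : EReal)) atTop := by
    refine le_limsup_of_frequently_le' ?_
    rw [frequently_atTop]
    intro X
    obtain ⟨r, hr, b, hb, hrich⟩ := h (⌈X⌉₊ + ⌈(y + 1) / c⌉₊ + 3)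
    obtain ⟨x, hx, hR⟩ := dr_point A a ha b hb r (by omega) hrich
    refine ⟨x, ?_, ?_⟩
    · refine (Nat.le_ceil X).trans (le_trans ?_ hx)
      exact_mod_cast (by omega : ⌈X⌉₊ ≤ r)
    · rw [EReal.coe_le_coe_iff]
      refine le_trans ?_ hR
      have h2 : (y + 1) / c ≤ r := by
        refine (Nat.le_ceil _).trans ?_
        exact_mod_cast (by omega : ⌈(y + 1) / c⌉₊ ≤ r)
      rw [div_le_iff₀ hc0, hc] at h2
      linarith
  refine lt_of_lt_of_le ?_ h1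
  rw [EReal.coe_lt_coe_iff]
  linarith

end Pool.Agent.H26.OS
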