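import Pool.Agent.H26.OS.Stm

/-! # OS-DV (helper58): empty intervals give `L_a = 0` -/

set_option autoImplicit false

namespace Pool.Agent.H26.OS

open Finset MeasureTheory Filter Topology Q198.CI Pool.Agent.H50.OI

theorem R_nonneg (A : Set ℕ) (a x : ℝ) (hx : 1 ≤ x) : 0 ≤ R A a x := by
  unfold R
  have h1 : 0 ≤ Real.log x := Real.log_nonneg hx
  have h2 : 0 ≤ Real.log x ^ a := Real.rpow_nonneg h1 a
  positivity

theorem dv : S_DV := by
  intro A a ha h
  have hl2 : Real.log 2 < 0.6931471808 := Real.log_two_lt_d9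
  have hl2' : 0 < Real.log 2 := Real.log_pos (by norm_num)
  apply le_antisymm
  · refine liminf_le_of_frequently_le' ?_
    rw [frequently_atTop]
    intro X
    obtain ⟨r, hr, b, hb, i, s, H, hri, his, hsi, hH, hA⟩ := h (⌈X⌉₊ + 3)
    have hi3 : 3 ≤ i := by omega
    have h2i : i < 2 ^ i := Nat.lt_two_pow_self
    have hs1 : 1 ≤ s - 1 := by omega
    set x : ℝ := ((s - 1 : ℕ) : ℝ) with hx
    have hx1 : 1 ≤ x := by rw [hx]; exact_mod_cast hs1
    have hxX : X ≤ x := by
      refine (Nat.le_ceil X).trans ?_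
      rw [hx]
      exact_mod_cast (by omega : ⌈X⌉₊ ≤ s - 1)
    refine ⟨x, hxX, ?_⟩
    have hi3' : (3 : ℝ) ≤ i := by exact_mod_cast hi3
    have hlx : Real.log x ≤ i := by
      have h1 : x ≤ 2 ^ (i + 1) := by
        rw [hx]
        have : s - 1 ≤ 2 ^ (i + 1) := by omega
        exact_mod_cast this
      have h2 : Real.log x ≤ ((i + 1 : ℕ) : ℝ) * Real.log 2 := by
        rw [← Real.log_pow]
        exact Real.log_le_log (by linarith) h1
      push_cast at h2
      nlinarith
    have hlx0 : 0 ≤ Real.log x := Real.log_nonneg hx1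
    have hpow : Real.log x ^ a ≤ H := by
      calc Real.log x ^ a ≤ (i : ℝ) ^ a := Real.rpow_le_rpow hlx0 hlx ha.le
        _ ≤ (i : ℝ) ^ b := Real.rpow_le_rpow_of_exponent_le (by linarith) hb
        _ ≤ H := hH
    have hempty : {n : ℕ | n ∈ A ∧ x < n ∧ (n : ℝ) ≤ x + Real.log x ^ a} = ∅ := by
      rw [Set.eq_empty_iff_forall_notMem]
      rintro n ⟨hnA, h1, h2⟩
      have h3 : s - 1 < n := by rw [hx] at h1; exact_mod_cast h1
      have h4 : (n : ℝ) ≤ ((s - 1 + H : ℕ) : ℝ) := by
        push_cast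
        linarith
      have h5 : n ≤ s - 1 + H := by exact_mod_cast h4
      exact hA n (by omega) (by omega) hnA
    have hR : R A a x = 0 := by
      unfold R
      rw [hempty]
      simp
    rw [hR]
    simp
  · refine le_liminf_of_le (by isBoundedDefault) ?_
    filter_upwards [eventually_ge_atTop (1 : ℝ)] with x hx
    exact_mod_cast R_nonneg A a x hx

end Pool.Agent.H26.OS
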