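import Pool.Agent.H26.OS.Stm

/-! # OS-FRQ (helper58) -/

set_option autoImplicit false

namespace Pool.Agent.H26.OS

open Finset MeasureTheory Filter Topology Q198.CI Pool.Agent.H50.OI

theorem frq : S_FRQ := by
  intro κ hκ hn c hc
  have hl2' : 0 < Real.log 2 := Real.log_pos (by norm_num)
  have hl2g : 0.6931471803 < Real.log 2 := Real.log_two_gt_d9
  push Not at hn
  have h1 := hn (c / 4) (by positivity)
  rw [frequently_atTop] at h1 ⊢
  intro i0
  obtain ⟨n, hn1, hn2⟩ := h1 (2 ^ (i0 + 4))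
  have hn0 : n ≠ 0 := by
    have : 0 < 2 ^ (i0 + 4) := by positivity
    omega
  set j := Nat.log 2 n with hj
  have hj1 : i0 + 4 ≤ j := (Nat.le_log_iff_pow_le (by norm_num) hn0).2 hn1
  have hj2 : 2 ^ j ≤ n := Nat.pow_log_le_self 2 hn0
  have hj3 : n < 2 ^ (j + 1) := Nat.lt_pow_succ_log_self (by norm_num) n
  clear_value j
  obtain ⟨i, rfl⟩ : ∃ i, j = i + 1 := ⟨j - 1, by omega⟩
  refine ⟨i, by omega, ?_⟩
  intro m hm1 hm2
  have hi3 : 3 ≤ i := by omega
  have hi3' : (3 : ℝ) ≤ i := by exact_mod_cast hi3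
  have hmn : κ m ≤ κ n := hκ (by omega)
  have hmn' : (κ m : ℝ) ≤ κ n := by exact_mod_cast hmn
  have hnpos : (0 : ℝ) < n := by exact_mod_cast Nat.pos_of_ne_zero hn0
  have hlog1 : Real.log n ≤ 2 * (i * Real.log 2) := by
    have h2 : Real.log n ≤ ((i + 1 + 1 : ℕ) : ℝ) * Real.log 2 := by
      rw [← Real.log_pow]
      refine Real.log_le_log hnpos ?_
      exact_mod_cast hj3.le
    push_cast at h2
    nlinarith
  have hlog2 : ((i : ℝ) + 1) * Real.log 2 ≤ Real.log n := by
    have h2 : ((i + 1 : ℕ) : ℝ) * Real.log 2 ≤ Real.log n := by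
      rw [← Real.log_pow]
      refine Real.log_le_log (by positivity) ?_
      exact_mod_cast hj2
    push_cast at h2
    exact h2
  have hsq : Real.sqrt i ≤ Real.log n := by
    have h3 : Real.sqrt i ≤ ((i : ℝ) + 1) / 2 := by
      rw [Real.sqrt_le_left (by positivity)]
      nlinarith [sq_nonneg ((i : ℝ) - 1)]
    nlinarith
  have hlogi : 0 < Real.log i := Real.log_pos (by linarith)
  have hll : Real.log i / 2 ≤ Real.log (Real.log n) := by
    rw [← Real.log_sqrt (by positivity)]
    exact Real.log_le_log (Real.sqrt_pos.2 (by linarith)) hsq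
  have hll0 : 0 < Real.log (Real.log n) := lt_of_lt_of_le (by positivity) hll
  have hfin : Real.log n / Real.log (Real.log n) ≤ 4 * (i * Real.log 2 / Real.log i) := by
    rw [div_le_iff₀ hll0]
    have h4 : 0 ≤ 4 * (i * Real.log 2 / Real.log i) := by positivity
    calc Real.log n ≤ 2 * (i * Real.log 2) := hlog1
      _ = 4 * (i * Real.log 2 / Real.log i) * (Real.log i / 2) := by field_simp; ring
      _ ≤ 4 * (i * Real.log 2 / Real.log i) * Real.log (Real.log n) :=
          mul_le_mul_of_nonneg_left hll h4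
  have : c / 4 * (Real.log n / Real.log (Real.log n)) ≤ c * (i * Real.log 2 / Real.log i) := by
    calc c / 4 * (Real.log n / Real.log (Real.log n)) ≤ c / 4 * (4 * (i * Real.log 2 / Real.log i)) :=
          mul_le_mul_of_nonneg_left hfin (by positivity)
      _ = _ := by ring
  linarith

end Pool.Agent.H26.OS
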