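import Pool.Agent.H26.OS.Stm

/-! # Project OS, stub GEN: the model with empty and rich intervals -/

set_option autoImplicit false

namespace Pool.Agent.H26.OS

open Finset MeasureTheory Filter Topology Q198.CI Pool.Agent.H50.OI

/-- the windows at the scale `i` -/
def wnd (i H k : ℕ) : Finset ℕ := Ico (2 ^ i + k * H) (2 ^ i + (k + 1) * H)

lemma wnd_block {i H N k n : ℕ} (hN : N * H ≤ 2 ^ i) (hk : k < N) (hn : n ∈ wnd i H k) :
    2 ^ i ≤ n ∧ n < 2 ^ (i + 1) := by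
  unfold wnd at hn
  rw [mem_Ico] at hn
  have h1 : (k + 1) * H ≤ N * H := Nat.mul_le_mul_right _ hk
  have h2 : 2 ^ (i + 1) = 2 ^ i + 2 ^ i := by rw [pow_succ]; omega
  constructor
  · have : 0 ≤ k * H := Nat.zero_le _
    omega
  · omega

lemma block_unique {i i' n : ℕ} (h : 2 ^ i ≤ n ∧ n < 2 ^ (i + 1))
    (h' : 2 ^ i' ≤ n ∧ n < 2 ^ (i' + 1)) : i = i' := by
  have e : ∀ j, 2 ^ j ≤ n ∧ n < 2 ^ (j + 1) → Nat.log 2 n = j := fun j hj =>
    (Nat.log_eq_iff (Or.inr ⟨by norm_num, by have := hj.1; have : 0 < 2 ^ j := by positivity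
                                             omega⟩)).2 hj
  rw [← e i h, ← e i' h']

lemma wnd_unique {i H k k' n : ℕ} (hn : n ∈ wnd i H k) (hn' : n ∈ wnd i H k') : k = k' := by
  unfold wnd at hn hn'
  rw [mem_Ico] at hn hn'
  by_contra hne
  rcases Nat.lt_or_gt_of_ne hne with h | h
  · have : (k + 1) * H ≤ k' * H := Nat.mul_le_mul_right _ h
    omega
  · have : (k' + 1) * H ≤ k * H := Nat.mul_le_mul_right _ h
    omega

theorem gen (hsce : S_SCE) (hwin : S_WIN) : S_GEN := by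
  classical
  intro κ cr ar hca hblk
  have hfreq : ∀ m : ℕ, ∃ᶠ i : ℕ in atTop, Blk κ (cr (m / 2)) i ∧ m ≤ i ∧ 3 ≤ i ∧
      ∃ (H N K : ℕ) (δ : ℝ), 0 < H ∧ (i : ℝ) ^ ar (m / 2) ≤ H ∧ N * H ≤ 2 ^ i ∧
      cr (m / 2) * ((i : ℝ) * Real.log 2 / Real.log i) ≤ K ∧ 0 ≤ δ ∧ (i : ℝ) ≤ N * δ ∧
      ∀ s : ℕ, 2 ^ i ≤ s → s + H ≤ 2 ^ (i + 1) →
        (∃ w : Finset ℕ → ℝ, IsLaw (Ico s (s + H)) K cp w ∧
          δ ≤ mass (Ico s (s + H)) w (fun A => A = ∅)) ∧
        ∃ w : Finset ℕ → ℝ, IsLaw (Ico s (s + H)) K cp w ∧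
          δ ≤ mass (Ico s (s + H)) w
            (fun A => (max ((m / 2 : ℕ) : ℝ) 1) * H ≤ i * (A.card : ℝ)) := by
    intro m
    obtain ⟨h1, h2, h3⟩ := hca (m / 2)
    refine (hblk (m / 2)).and_eventually ?_
    filter_upwards [eventually_ge_atTop m, eventually_ge_atTop 3,
      hwin (cr (m / 2)) (ar (m / 2)) (max ((m / 2 : ℕ) : ℝ) 1) h1 h2 h3 (le_max_right _ _)]
      with i h4 h5 h6
    exact ⟨h4, h5, h6⟩
  obtain ⟨φ, hφ, hG⟩ := extraction_forall_of_frequently hfreq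
  choose hB hm h3 H N K δ hH hHi hNH hK hδ0 hδ hw using hG
  have hWs : ∀ m k, k < N m → 2 ^ φ m ≤ 2 ^ φ m + k * H m ∧
      (2 ^ φ m + k * H m) + H m ≤ 2 ^ (φ m + 1) := by
    intro m k hk
    have h1 : (k + 1) * H m ≤ N m * H m := Nat.mul_le_mul_right _ hk
    have h2 : 2 ^ (φ m + 1) = 2 ^ φ m + 2 ^ φ m := by rw [pow_succ]; omega
    have h4 := hNH m
    have h5 : (k + 1) * H m = k * H m + H m := by ring
    omega
  have hwe : ∀ m k, wnd (φ m) (H m) k = Ico (2 ^ φ m + k * H m) ((2 ^ φ m + k * H m) + H m) := by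
    intro m k
    unfold wnd
    congr 1
    ring
  have c1 : ∀ m k m' k' n, k < N m → k' < N m' → n ∈ wnd (φ m) (H m) k →
      n ∈ wnd (φ m') (H m') k' → m = m' ∧ k = k' := by
    intro m k m' k' n hk hk' hn hn'
    have h1 := wnd_block (hNH m) hk hn
    have h2 := wnd_block (hNH m') hk' hn'
    have h4 : m = m' := hφ.injective (block_unique h1 h2)
    subst h4
    exact ⟨rfl, wnd_unique hn hn'⟩
  have c2 : ∀ m k n, k < N m → n ∈ wnd (φ m) (H m) k → κ n ≤ K m := by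
    intro m k n hk hn
    have h1 := wnd_block (hNH m) hk hn
    have h2 := hB m n h1.1 h1.2
    have h4 := h2.trans (hK m)
    exact_mod_cast h4
  have c3 : ∀ m k, k < N m → ∃ w : Finset ℕ → ℝ, IsLaw (wnd (φ m) (H m) k) (K m) cp w ∧
      δ m ≤ mass (wnd (φ m) (H m) k) w (fun A => if m % 2 = 0 then A = ∅ else
      (max ((m / 2 : ℕ) : ℝ) 1) * H m ≤ φ m * (A.card : ℝ)) := by
    intro m k hk
    have h1 := hw m _ (hWs m k hk).1 (hWs m k hk).2
    rw [hwe]
    by_cases h2 : m % 2 = 0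
    · obtain ⟨w, hw1, hw2⟩ := h1.1
      refine ⟨w, hw1, ?_⟩
      simp only [if_pos h2]
      exact hw2
    · obtain ⟨w, hw1, hw2⟩ := h1.2
      refine ⟨w, hw1, ?_⟩
      simp only [if_neg h2]
      exact hw2
  have c4 : Summable (fun m => Real.exp (-((N m : ℝ) * δ m))) := by
    refine Summable.of_nonneg_of_le (fun m => (Real.exp_pos _).le) (fun m => ?_)
      Real.summable_exp_neg_nat
    apply Real.exp_le_exp.2
    have h1 := hδ m
    have h2 : (m : ℝ) ≤ φ m := by exact_mod_cast hm m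
    linarith
  obtain ⟨Ω, mΩ, P, hP, E, hE, hI, hae⟩ := hsce (fun m k => wnd (φ m) (H m) k) N κ K cp δ
    (fun m _ A => if m % 2 = 0 then A = ∅ else
      (max ((m / 2 : ℕ) : ℝ) 1) * H m ≤ φ m * (A.card : ℝ)) c1 cp_nonneg cp_le_one c2 hδ0 c3 c4
  refine ⟨Ω, mΩ, P, hP, E, ⟨hE, ?_⟩, ?_⟩
  · intro T hT
    rw [hI T fun n hn => (hT n hn).2]
    congr 1
    refine prod_congr rfl fun n hn => ?_
    unfold cp
    rw [if_pos (hT n hn).1]
  · filter_upwards [hae] with ω hω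
    have hω0 : ∀ᶠ r : ℕ in atTop, ∃ k, k < N (2 * r) ∧
        ∃ A : Finset ℕ, (∀ n, n ∈ A ↔ n ∈ wnd (φ (2 * r)) (H (2 * r)) k ∧ ω ∈ E n) ∧
          (if (2 * r) % 2 = 0 then A = ∅ else
            (max ((2 * r / 2 : ℕ) : ℝ) 1) * H (2 * r) ≤ φ (2 * r) * (A.card : ℝ)) := by
      have ht : Tendsto (fun r : ℕ => 2 * r) atTop atTop :=
        tendsto_atTop_mono (fun r => by simp only [id]; omega) tendsto_id
      exact ht.eventually hω
    have hω1 : ∀ᶠ r : ℕ in atTop, ∃ k, k < N (2 * r + 1) ∧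
        ∃ A : Finset ℕ, (∀ n, n ∈ A ↔ n ∈ wnd (φ (2 * r + 1)) (H (2 * r + 1)) k ∧ ω ∈ E n) ∧
          (if (2 * r + 1) % 2 = 0 then A = ∅ else
            (max (((2 * r + 1) / 2 : ℕ) : ℝ) 1) * H (2 * r + 1) ≤
              φ (2 * r + 1) * (A.card : ℝ)) := by
      have ht : Tendsto (fun r : ℕ => 2 * r + 1) atTop atTop :=
        tendsto_atTop_mono (fun r => by simp only [id]; omega) tendsto_id
      exact ht.eventually hω
    filter_upwards [hω0, hω1] with r h0 h1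
    constructor
    · obtain ⟨k, hk, A, hA, hQ⟩ := h0
      rw [if_pos (by omega)] at hQ
      have e2 : 2 * r / 2 = r := by omega
      refine ⟨φ (2 * r), 2 ^ φ (2 * r) + k * H (2 * r), H (2 * r), ?_, (hWs _ k hk).1,
        (hWs _ k hk).2, ?_, ?_⟩
      · have := hm (2 * r)
        omega
      · have := hHi (2 * r)
        rw [e2] at this
        exact this
      · intro n hn1 hn2 hn3
        have h5 : n ∈ A := by
          rw [hA, hwe, mem_Ico]
          exact ⟨⟨hn1, hn2⟩, hn3⟩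
        rw [hQ] at h5
        simp at h5
    · obtain ⟨k, hk, A, hA, hQ⟩ := h1
      rw [if_neg (by omega)] at hQ
      have e2 : (2 * r + 1) / 2 = r := by omega
      refine ⟨φ (2 * r + 1), 2 ^ φ (2 * r + 1) + k * H (2 * r + 1), H (2 * r + 1), ?_,
        (hWs _ k hk).1, (hWs _ k hk).2, ?_, A, ?_, ?_⟩
      · have := hm (2 * r + 1)
        omega
      · have := hHi (2 * r + 1)
        rw [e2] at this
        exact this
      · intro n hn
        rw [hA, hwe, mem_Ico] at hn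
        exact ⟨hn.2, hn.1.1, hn.1.2⟩
      · rw [e2] at hQ
        refine le_trans ?_ hQ
        exact mul_le_mul_of_nonneg_right (le_max_left _ _) (Nat.cast_nonneg _)

end Pool.Agent.H26.OS
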