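import Pool.Agent.H26.OS.Stm

/-! # Project OS: `S_NUM` -/

set_option autoImplicit false

namespace Pool.Agent.H26.OS

open Finset MeasureTheory Filter Topology Q198.CI Pool.Agent.H50.OI

/-- the final inequality between exponents -/
lemma num_core {c a C D β x ℓ : ℝ} (hc : 0 < c) (ha : 2 < a) (hD : 0 ≤ D)
    (hβ : β = (1 - c / 2 * (a - 2)) * Real.log 2 / 4) (hβ0 : 0 < β)
    (hl2 : 1 / 2 ≤ Real.log 2) (hl2' : Real.log 2 ≤ 1)
    (hx : 0 < x) (hℓ : 1 ≤ ℓ) (h1 : Real.log ℓ ≤ β / c * ℓ) (h2 : D ≤ β / (2 * c) * ℓ)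
    (h3 : ℓ ≤ β / (2 * (2 * a + 3)) * x) (h4 : D + Real.log (8 * C) ≤ β / 2 * x) :
    Real.log (8 * C) + ℓ + a * ℓ + (a - 1) / 2 * ℓ +
      (c * (x * Real.log 2 / ℓ) + 1) * (D + (a - 2) / 2 * ℓ + 1 / 2 * Real.log ℓ) ≤
      x * Real.log 2 := by
  have hℓ0 : 0 < ℓ := by linarith
  have hlogℓ : Real.log ℓ ≤ ℓ := (Real.log_le_sub_one_of_pos hℓ0).trans (by linarith)
  -- the main term
  have e1 : c * (x * Real.log 2 / ℓ) * ((a - 2) / 2 * ℓ) = c / 2 * (a - 2) * (x * Real.log 2) := by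
    field_simp
  have e2 : c * (x * Real.log 2 / ℓ) * (D + 1 / 2 * Real.log ℓ) ≤ β * x := by
    have h5 : D + 1 / 2 * Real.log ℓ ≤ β / c * ℓ := by
      have : β / (2 * c) * ℓ = 1 / 2 * (β / c * ℓ) := by
        field_simp
      linarith
    have h6 : 0 ≤ c * (x * Real.log 2 / ℓ) := by positivity
    calc c * (x * Real.log 2 / ℓ) * (D + 1 / 2 * Real.log ℓ)
        ≤ c * (x * Real.log 2 / ℓ) * (β / c * ℓ) := mul_le_mul_of_nonneg_left h5 h6
      _ = β * x * Real.log 2 := by field_simp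
      _ ≤ β * x * 1 := mul_le_mul_of_nonneg_left hl2' (by positivity)
      _ = β * x := mul_one _
  have e3 : Real.log (8 * C) + ℓ + a * ℓ + (a - 1) / 2 * ℓ +
      (D + (a - 2) / 2 * ℓ + 1 / 2 * Real.log ℓ) ≤ β * x := by
    have h7 : ℓ + a * ℓ + (a - 1) / 2 * ℓ + ((a - 2) / 2 * ℓ + 1 / 2 * Real.log ℓ) ≤
        (2 * a + 3) * ℓ := by nlinarith
    have h8 : (2 * a + 3) * ℓ ≤ β / 2 * x := by
      have h9 : (2 * a + 3) * ℓ ≤ (2 * a + 3) * (β / (2 * (2 * a + 3)) * x) :=
        mul_le_mul_of_nonneg_left h3 (by linarith)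
      have h10 : (2 * a + 3) * (β / (2 * (2 * a + 3)) * x) = β / 2 * x := by
        have : (2 * a + 3) ≠ 0 := by linarith
        field_simp
      linarith
    linarith
  have e4 : c / 2 * (a - 2) * (x * Real.log 2) + β * x + β * x ≤ x * Real.log 2 := by
    rw [hβ] at hβ0 ⊢
    have : 0 < (1 - c / 2 * (a - 2)) * Real.log 2 := by linarith
    nlinarith [mul_pos this hx]
  calc Real.log (8 * C) + ℓ + a * ℓ + (a - 1) / 2 * ℓ +
      (c * (x * Real.log 2 / ℓ) + 1) * (D + (a - 2) / 2 * ℓ + 1 / 2 * Real.log ℓ)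
      = c * (x * Real.log 2 / ℓ) * ((a - 2) / 2 * ℓ) +
        c * (x * Real.log 2 / ℓ) * (D + 1 / 2 * Real.log ℓ) +
        (Real.log (8 * C) + ℓ + a * ℓ + (a - 1) / 2 * ℓ +
          (D + (a - 2) / 2 * ℓ + 1 / 2 * Real.log ℓ)) := by ring
    _ ≤ c / 2 * (a - 2) * (x * Real.log 2) + β * x + β * x := by
        rw [e1]
        linarith
    _ ≤ x * Real.log 2 := e4

lemma num_ev {ε : ℝ} (hε : 0 < ε) : ∀ᶠ y : ℝ in atTop, Real.log y ≤ ε * y := by
  have h := (Real.isLittleO_log_id_atTop.def hε)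
  filter_upwards [h, eventually_ge_atTop 1] with y h1 h2
  rw [Real.norm_of_nonneg (Real.log_nonneg h2), id, Real.norm_of_nonneg (by linarith)] at h1
  exact h1

theorem num : S_NUM := by
  intro c a C M hc ha hca hC hM
  have hl2 : 1 / 2 ≤ Real.log 2 := by
    have := Real.log_two_gt_d9
    linarith
  have hl2' : Real.log 2 ≤ 1 := by
    have := Real.log_two_lt_d9
    linarith
  have hl0 : 0 < Real.log 2 := by linarith
  have hC0 : 0 < C := by linarith
  have hM0 : 0 < M := by linarith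
  obtain ⟨β, hβ⟩ : ∃ β : ℝ, β = (1 - c / 2 * (a - 2)) * Real.log 2 / 4 := ⟨_, rfl⟩
  have hβ0 : 0 < β := by
    rw [hβ]
    have : 0 < 1 - c / 2 * (a - 2) := by linarith
    positivity
  obtain ⟨D, hD⟩ : ∃ D : ℝ, D = max 0 (Real.log (C * M) + 1 / 2 * Real.log (8 / c)) := ⟨_, rfl⟩
  have hD0 : 0 ≤ D := by rw [hD]; exact le_max_left _ _
  have hD1 : Real.log (C * M) + 1 / 2 * Real.log (8 / c) ≤ D := by rw [hD]; exact le_max_right _ _
  have hlt : Tendsto (fun i : ℕ => Real.log (i : ℝ)) atTop atTop :=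
    Real.tendsto_log_atTop.comp tendsto_natCast_atTop_atTop
  have hit : Tendsto (fun i : ℕ => (i : ℝ)) atTop atTop := tendsto_natCast_atTop_atTop
  filter_upwards [eventually_ge_atTop 3, hlt.eventually_ge_atTop 1,
    hlt.eventually (num_ev (show 0 < β / c by positivity)),
    hlt.eventually_ge_atTop (D / (β / (2 * c))),
    hit.eventually (num_ev (show 0 < β / (2 * (2 * a + 3)) by
      have : 0 < 2 * a + 3 := by linarith
      positivity)),
    hit.eventually_ge_atTop ((D + Real.log (8 * C)) / (β / 2))]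
    with i g1 g2 g3 g4 g5 g6
  intro H k p hH hHa hp hpi hk1 hk2
  rw [div_le_iff₀ (by positivity)] at g4 g6
  have hi0 : (0:ℝ) < i := by
    have : 0 < i := by omega
    exact_mod_cast this
  obtain ⟨ℓ, hℓ⟩ : ∃ ℓ : ℝ, ℓ = Real.log i := ⟨_, rfl⟩
  rw [← hℓ] at g2 g3 g4 g5 hk1 hk2
  have hℓ0 : 0 < ℓ := by linarith
  have hcore := num_core (C := C) hc ha hD0 hβ hβ0 hl2 hl2' hi0 g2 g3
    (by linarith) g5 (by linarith)
  have hH0 : (0:ℝ) < H := by exact_mod_cast hH
  have hk0 : (0:ℝ) < k := lt_of_lt_of_le (by positivity) hk1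
  have hiexp : (i : ℝ) = Real.exp ℓ := by rw [hℓ, Real.exp_log hi0]
  have hia : (i : ℝ) ^ a = Real.exp (a * ℓ) := by
    rw [Real.rpow_def_of_pos hi0, ← hℓ, mul_comm]
  -- `H p`
  have hHp0 : 0 < H * p := by positivity
  have hHp : H * p ≤ 4 * Real.exp ((a - 1) * ℓ) := by
    calc (H : ℝ) * p ≤ (2 * (i : ℝ) ^ a) * (1 / ((i : ℝ) * Real.log 2)) :=
          mul_le_mul hHa hpi hp.le (by positivity)
      _ = 2 / Real.log 2 * ((i : ℝ) ^ a / i) := by field_simp
      _ ≤ 4 * ((i : ℝ) ^ a / i) := by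
          apply mul_le_mul_of_nonneg_right _ (by positivity)
          rw [div_le_iff₀ hl0]
          linarith
      _ = 4 * Real.exp ((a - 1) * ℓ) := by
          rw [hia, hiexp, ← Real.exp_sub]
          congr 2
          ring
  have hs1 : Real.sqrt (H * p) ≤ 2 * Real.exp ((a - 1) / 2 * ℓ) := by
    rw [Real.sqrt_le_left (by positivity)]
    refine hHp.trans (le_of_eq ?_)
    rw [mul_pow, ← Real.exp_nat_mul]
    norm_num
    ring_nf
  -- `H p / k`
  have hHpk : H * p / k ≤ Real.exp (Real.log (8 / c) + (a - 2) * ℓ + Real.log ℓ) := by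
    have h1 : (H * p / k : ℝ) ≤ 4 * Real.exp ((a - 1) * ℓ) / (c * (i * Real.log 2 / ℓ)) :=
      div_le_div₀ (by positivity) hHp (by positivity) hk1
    refine h1.trans ?_
    have h2 : 4 * Real.exp ((a - 1) * ℓ) / (c * (i * Real.log 2 / ℓ)) =
        4 / (c * Real.log 2) * (Real.exp ((a - 1) * ℓ) / i) * ℓ := by field_simp
    have h3 : Real.exp (Real.log (8 / c) + (a - 2) * ℓ + Real.log ℓ) =
        8 / c * (Real.exp ((a - 1) * ℓ) / i) * ℓ := by
      rw [Real.exp_add, Real.exp_add, Real.exp_log (by positivity), Real.exp_log hℓ0, hiexp,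
        ← Real.exp_sub]
      congr 3
      ring
    rw [h2, h3]
    apply mul_le_mul_of_nonneg_right _ hℓ0.le
    apply mul_le_mul_of_nonneg_right _ (by positivity)
    rw [div_le_div_iff₀ (by positivity) hc]
    nlinarith
  obtain ⟨G, hG⟩ : ∃ G : ℝ, G = D + (a - 2) / 2 * ℓ + 1 / 2 * Real.log ℓ := ⟨_, rfl⟩
  have hlogℓ : 0 ≤ Real.log ℓ := Real.log_nonneg g2
  have hG0 : 0 ≤ G := by
    rw [hG]
    have : 0 < a - 2 := by linarith
    positivity
  have hbase : C * M * Real.sqrt (H * p / k) ≤ Real.exp G := by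
    have h1 : Real.sqrt (H * p / k) ≤
        Real.exp (1 / 2 * (Real.log (8 / c) + (a - 2) * ℓ + Real.log ℓ)) := by
      rw [Real.sqrt_le_left (Real.exp_pos _).le, ← Real.exp_nat_mul]
      refine hHpk.trans (le_of_eq ?_)
      congr 1
      push_cast
      ring
    calc C * M * Real.sqrt (H * p / k)
        ≤ Real.exp (Real.log (C * M)) *
          Real.exp (1 / 2 * (Real.log (8 / c) + (a - 2) * ℓ + Real.log ℓ)) := by
          rw [Real.exp_log (by positivity)]
          exact mul_le_mul_of_nonneg_left h1 (by positivity)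
      _ = Real.exp (Real.log (C * M) +
          1 / 2 * (Real.log (8 / c) + (a - 2) * ℓ + Real.log ℓ)) := (Real.exp_add _ _).symm
      _ ≤ Real.exp G := by
          apply Real.exp_le_exp.mpr
          rw [hG]
          linarith
  have hbase0 : 0 < C * M * Real.sqrt (H * p / k) := by
    have : 0 < Real.sqrt (H * p / k) := Real.sqrt_pos.mpr (by positivity)
    positivity
  have hpow : (C * M * Real.sqrt (H * p / k)) ^ k ≤
      Real.exp ((c * (i * Real.log 2 / ℓ) + 1) * G) := by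
    calc (C * M * Real.sqrt (H * p / k)) ^ k ≤ (Real.exp G) ^ k :=
          pow_le_pow_left₀ hbase0.le hbase k
      _ = Real.exp (k * G) := (Real.exp_nat_mul _ _).symm
      _ ≤ _ := Real.exp_le_exp.mpr (mul_le_mul_of_nonneg_right hk2 hG0)
  -- the product
  obtain ⟨X, hX⟩ : ∃ X : ℝ, X = (C * M * Real.sqrt (H * p / k)) ^ k * (C * Real.sqrt (H * p)) :=
    ⟨_, rfl⟩
  have hsq0 : 0 < Real.sqrt (H * p) := Real.sqrt_pos.mpr hHp0
  have hX0 : 0 < X := by
    rw [hX]
    have := pow_pos hbase0 k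
    positivity
  have h2exp : (2:ℝ) ^ i = Real.exp (i * Real.log 2) := by
    rw [Real.exp_nat_mul, Real.exp_log (by norm_num)]
  have hprod : 2 * H * (i * X) ≤ (2:ℝ) ^ i := by
    have hX1 : X ≤ Real.exp ((c * (i * Real.log 2 / ℓ) + 1) * G) *
        (C * (2 * Real.exp ((a - 1) / 2 * ℓ))) := by
      rw [hX]
      exact mul_le_mul hpow (mul_le_mul_of_nonneg_left hs1 hC0.le) (by positivity)
        (Real.exp_pos _).le
    calc 2 * (H : ℝ) * (i * X) ≤ 2 * (2 * Real.exp (a * ℓ)) * (Real.exp ℓ *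
          (Real.exp ((c * (i * Real.log 2 / ℓ) + 1) * G) *
          (C * (2 * Real.exp ((a - 1) / 2 * ℓ))))) := by
          apply mul_le_mul
          · rw [← hia]
            linarith
          · rw [← hiexp]
            exact mul_le_mul_of_nonneg_left hX1 hi0.le
          · positivity
          · positivity
      _ = Real.exp (Real.log (8 * C)) * Real.exp ℓ * Real.exp (a * ℓ) *
          Real.exp ((a - 1) / 2 * ℓ) * Real.exp ((c * (i * Real.log 2 / ℓ) + 1) * G) := by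
          rw [Real.exp_log (by positivity)]
          ring
      _ = Real.exp (Real.log (8 * C) + ℓ + a * ℓ + (a - 1) / 2 * ℓ +
          (c * (i * Real.log 2 / ℓ) + 1) * G) := by
          rw [Real.exp_add, Real.exp_add, Real.exp_add, Real.exp_add]
      _ ≤ Real.exp (i * Real.log 2) := by
          apply Real.exp_le_exp.mpr
          rw [hG]
          exact hcore
      _ = (2:ℝ) ^ i := h2exp.symm
  -- `2 H ≤ 2 ^ i`
  have h2H : 2 * (H : ℝ) ≤ (2:ℝ) ^ i := by
    have hG1 : 0 ≤ (c * (i * Real.log 2 / ℓ) + 1) * G := by positivity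
    have ha1 : 0 ≤ (a - 1) / 2 * ℓ := by
      have : 0 < a - 1 := by linarith
      positivity
    have h8C : Real.log 4 ≤ Real.log (8 * C) := Real.log_le_log (by norm_num) (by linarith)
    calc 2 * (H : ℝ) ≤ 2 * (2 * (i : ℝ) ^ a) := by linarith
      _ = Real.exp (Real.log 4) * Real.exp (a * ℓ) := by
          rw [hia, Real.exp_log (by norm_num)]
          ring
      _ = Real.exp (Real.log 4 + a * ℓ) := (Real.exp_add _ _).symm
      _ ≤ Real.exp (i * Real.log 2) := by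
          apply Real.exp_le_exp.mpr
          rw [hG] at hG1
          linarith
      _ = (2:ℝ) ^ i := h2exp.symm
  -- the quotient
  have hN : (2:ℝ) ^ i ≤ 2 * H * ((2 ^ i / H : ℕ) : ℝ) := by
    have h3 : 2 * H ≤ 2 ^ i := by exact_mod_cast h2H
    have h4 : 2 ≤ 2 ^ i / H := (Nat.le_div_iff_mul_le hH).mpr h3
    have h5 : 2 ^ i < H * (2 ^ i / H + 1) := Nat.lt_mul_div_succ _ hH
    have h6 : 2 ^ i ≤ 2 * H * (2 ^ i / H) := by nlinarith
    exact_mod_cast h6
  rw [← hX, ← div_eq_mul_inv, le_div_iff₀ hX0]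
  have h7 : 2 * (H : ℝ) * (i * X) ≤ 2 * H * ((2 ^ i / H : ℕ) : ℝ) := hprod.trans hN
  exact le_of_mul_le_mul_left h7 (by positivity)

end Pool.Agent.H26.OS
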