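import Pool.Agent.H26.OS.Stm
import Pool.Agent.H50.L.CI.Quad

/-! # Project OS, stub QAT: a law with the binomial moments up to order `k` and a large mass
at `y` -/

set_option autoImplicit false

namespace Pool.Agent.H26.OS

open Finset Polynomial Q198.CI

/-- the Lagrange weights of the evaluation at `y` -/
noncomputable def lam (a s k : ℕ) (y : ℝ) (j : ℕ) : ℝ :=
  ∏ i ∈ (range (k + 1)).erase j, ((y - ((a : ℝ) + i * s)) / (((a : ℝ) + j * s) - ((a : ℝ) + i * s)))

lemma lam_inj {a s k : ℕ} (hs : 0 < s) :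
    Set.InjOn (fun j : ℕ => (a : ℝ) + j * s) (range (k + 1) : Set ℕ) := by
  intro i _ j _ h
  have h3 : (i : ℝ) * s = j * s := by
    have : (a : ℝ) + i * s = a + j * s := h
    linarith
  have h4 : (s : ℝ) ≠ 0 := by exact_mod_cast hs.ne'
  exact_mod_cast mul_right_cancel₀ h4 h3

lemma lam_exact {a s k : ℕ} (hs : 0 < s) (y : ℝ) (f : ℝ[X]) (hf : f.natDegree ≤ k) :
    ∑ j ∈ range (k + 1), lam a s k y j * f.eval ((a : ℝ) + j * s) = f.eval y := by
  have hdeg : f.degree < ((range (k + 1)).card : ℕ) := by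
    rw [card_range]
    refine lt_of_le_of_lt degree_le_natDegree ?_
    exact_mod_cast Nat.lt_succ_of_le hf
  have h := Lagrange.eq_interpolate (lam_inj (a := a) (k := k) hs) hdeg
  have h2 := congrArg (Polynomial.eval y) h
  rw [Lagrange.interpolate_apply, eval_finsetSum] at h2
  rw [h2]
  refine sum_congr rfl fun j _ => ?_
  rw [eval_mul, eval_C, mul_comm]
  congr 1
  unfold Lagrange.basis lam
  rw [eval_prod]
  refine prod_congr rfl fun i _ => ?_
  unfold Lagrange.basisDivisor
  rw [eval_mul, eval_C, eval_sub, eval_X, eval_C]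
  rw [div_eq_mul_inv]
  ring

lemma lam_self {a s k j : ℕ} (hs : 0 < s) :
    lam a s k ((a : ℝ) + j * s) j = 1 := by
  unfold lam
  refine prod_eq_one fun i hi => ?_
  rw [mem_erase] at hi
  apply div_self
  have h4 : (s : ℝ) ≠ 0 := by exact_mod_cast hs.ne'
  have h5 : (j : ℝ) - i ≠ 0 := by
    intro h
    apply hi.1
    have : (j : ℝ) = i := by linarith
    exact_mod_cast this.symm
  have e : ((a : ℝ) + j * s) - (a + i * s) = (j - i) * s := by ring
  rw [e]
  exact mul_ne_zero h5 h4

lemma lam_le {a s k j : ℕ} (hk : 0 < k) (hs : 0 < s) (hj : j ≤ k) {y Y : ℝ}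
    (hY : ∀ i, i ≤ k → |y - ((a : ℝ) + i * s)| ≤ Y) :
    |lam a s k y j| ≤ (2 * Real.exp 1 * Y / (s * k)) ^ k := by
  unfold lam
  have hs' : (0:ℝ) < s := by exact_mod_cast hs
  have hk' : (0:ℝ) < k := by exact_mod_cast hk
  have hY0 : 0 ≤ Y := (abs_nonneg _).trans (hY 0 (Nat.zero_le _))
  rw [abs_prod]
  have h5 : ∏ i ∈ (range (k + 1)).erase j,
      |(y - ((a : ℝ) + i * s)) / (((a : ℝ) + j * s) - ((a : ℝ) + i * s))| ≤
      ∏ i ∈ (range (k + 1)).erase j, (Y / s) * (|(j : ℝ) - i|)⁻¹ := by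
    refine prod_le_prod (fun i _ => abs_nonneg _) fun i hi => ?_
    rw [mem_erase, mem_range] at hi
    rw [abs_div]
    have e1 : (a : ℝ) + j * s - (a + i * s) = (j - i) * s := by ring
    rw [e1, abs_mul, abs_of_nonneg hs'.le]
    have e2 : Y / s * |(j : ℝ) - i|⁻¹ = Y / (|(j : ℝ) - i| * s) := by
      rw [div_mul_eq_mul_div, ← div_eq_mul_inv, div_div]
    rw [e2]
    exact div_le_div_of_nonneg_right (hY i (by omega)) (by positivity)
  rw [prod_mul_distrib, prod_const, card_erase_of_mem (by simp; omega), card_range,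
    Nat.add_sub_cancel, prod_inv_distrib, prod_dist hj] at h5
  have h6 := fact_mul_fact_ge hj hk
  have h7 : (0:ℝ) < ((k : ℝ) / (2 * Real.exp 1)) ^ k := by positivity
  have h8 : ((j.factorial : ℝ) * ((k - j).factorial : ℝ))⁻¹ ≤ (((k : ℝ) / (2 * Real.exp 1)) ^ k)⁻¹ :=
    inv_anti₀ h7 h6
  refine h5.trans ?_
  calc (Y / s) ^ k * ((j.factorial : ℝ) * ((k - j).factorial : ℝ))⁻¹
      ≤ (Y / s) ^ k * (((k : ℝ) / (2 * Real.exp 1)) ^ k)⁻¹ :=
        mul_le_mul_of_nonneg_left h8 (by positivity)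
    _ = _ := by
      rw [← inv_pow, ← mul_pow]
      congr 1
      field_simp

/-- the corrected law -/
noncomputable def qy (H : ℕ) (p : ℝ) (k a s y : ℕ) (t : ℝ) (x : ℕ) : ℝ :=
  bi H p x + t * (if x = y then 1 else 0) -
    t * ∑ j ∈ range (k + 1), lam a s k y j * (if x = a + j * s then 1 else 0)

lemma qy_moment {H k a s y : ℕ} {p t : ℝ} (hs : 0 < s) (hy : y ≤ H) (haH : a + k * s ≤ H)
    (hkH : k ≤ H) {j : ℕ} (hj : j ≤ k) :
    ∑ x ∈ range (H + 1), qy H p k a s y t x * (x.choose j : ℝ) = (H.choose j : ℝ) * p ^ j := by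
  unfold qy
  have h1 : ∀ x ∈ range (H + 1), (bi H p x + t * (if x = y then (1:ℝ) else 0) -
      t * ∑ i ∈ range (k + 1), lam a s k y i * (if x = a + i * s then 1 else 0)) * (x.choose j : ℝ) =
      bi H p x * (x.choose j : ℝ) + t * (if x = y then (x.choose j : ℝ) else 0) -
      t * ∑ i ∈ range (k + 1), lam a s k y i * (if x = a + i * s then (x.choose j : ℝ) else 0) := by
    intro x _
    have e2 : (∑ i ∈ range (k + 1), lam a s k y i * (if x = a + i * s then (1:ℝ) else 0)) *
        (x.choose j : ℝ) = ∑ i ∈ range (k + 1), lam a s k y i *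
          (if x = a + i * s then (x.choose j : ℝ) else 0) := by
      rw [sum_mul]
      refine sum_congr rfl fun i _ => ?_
      split_ifs <;> simp
    have e3 : (if x = y then (1:ℝ) else 0) * (x.choose j : ℝ) =
        if x = y then (x.choose j : ℝ) else 0 := by
      split_ifs <;> simp
    rw [sub_mul, add_mul, mul_assoc t, mul_assoc t, e2, e3]
  rw [sum_congr rfl h1, sum_sub_distrib, sum_add_distrib, bi_moment H p j (hj.trans hkH), ← mul_sum,
    ← mul_sum, sum_ite_eq' (range (H + 1)) y (fun x => (x.choose j : ℝ)),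
    if_pos (by rw [mem_range]; omega), sum_comm]
  have h2 : ∀ i ∈ range (k + 1), ∑ x ∈ range (H + 1),
      lam a s k y i * (if x = a + i * s then (x.choose j : ℝ) else 0) =
      lam a s k y i * (C ((j.factorial : ℝ)⁻¹) * descPochhammer ℝ j).eval ((a : ℝ) + i * s) := by
    intro i hi
    rw [mem_range] at hi
    rw [← mul_sum, sum_ite_eq' (range (H + 1)) (a + i * s) (fun x => (x.choose j : ℝ)), if_pos,
      choose_eq_eval]
    · push_cast
      rfl
    · rw [mem_range]
      have : i * s ≤ k * s := Nat.mul_le_mul_right _ (by omega)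
      omega
  rw [sum_congr rfl h2, lam_exact hs _ _ ((natDegree_choose j).trans hj), ← choose_eq_eval]
  ring

theorem qat : S_QAT := by
  refine ⟨8 * Real.exp 5, ?_, ?_⟩
  · have := Real.add_one_le_exp (5:ℝ)
    linarith
  intro H k y p M hp hp4 hk hkH hM hyM hyH
  set C : ℝ := 8 * Real.exp 5 with hC
  have he5 : 1 ≤ Real.exp 5 := Real.one_le_exp (by norm_num)
  have hC8 : 8 ≤ C := by rw [hC]; linarith
  set μ : ℝ := H * p with hμ
  have hk1 : (1:ℝ) ≤ k := by exact_mod_cast hk
  have hk0 : (0:ℝ) < k := by linarith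
  have hμ100 : 100 ≤ μ := by linarith
  have hμ0 : 0 < μ := by linarith
  set r : ℝ := Real.sqrt (μ / k) with hr
  have hr2 : r ^ 2 = μ / k := Real.sq_sqrt (by positivity)
  have hkr2 : k * r ^ 2 = μ := by
    rw [hr2]
    field_simp
  have hr10 : 10 ≤ r := by
    rw [hr]
    apply Real.le_sqrt_of_sq_le
    rw [le_div_iff₀ hk0]
    linarith
  set s : ℕ := ⌊r⌋₊ with hs
  have hsr : (s : ℝ) ≤ r := Nat.floor_le (by linarith)
  have hsr2 : r / 2 ≤ s := by
    have := Nat.lt_floor_add_one r
    rw [← hs] at this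
    linarith
  have hs0 : (0:ℝ) < s := by linarith
  have hs0' : 0 < s := by exact_mod_cast hs0
  set U : ℕ := k * s with hU
  have hU0 : (0:ℝ) ≤ U := Nat.cast_nonneg U
  have hUr : (U : ℝ) ≤ k * r := by
    rw [hU]
    push_cast
    exact mul_le_mul_of_nonneg_left hsr hk0.le
  have hU2 : (U : ℝ) ^ 2 ≤ k * μ := by
    calc (U : ℝ) ^ 2 ≤ (k * r) ^ 2 := pow_le_pow_left₀ hU0 hUr 2
      _ = k * (k * r ^ 2) := by ring
      _ = _ := by rw [hkr2]
  have hUμ : (U : ℝ) ≤ μ / 10 := by
    have h1 : (k : ℝ) * μ ≤ (μ / 10) ^ 2 := by nlinarith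
    exact le_of_sq_le_sq (hU2.trans h1) (by positivity)
  have hH400 : 400 ≤ (H : ℝ) := by
    have : μ ≤ H * (1 / 4) := by
      rw [hμ]
      exact mul_le_mul_of_nonneg_left hp4 (Nat.cast_nonneg _)
    linarith
  have hμH : μ ≤ H / 4 := by
    have : μ ≤ H * (1 / 4) := by
      rw [hμ]
      exact mul_le_mul_of_nonneg_left hp4 (Nat.cast_nonneg _)
    linarith
  obtain ⟨x₀, hx₀H, hmax, hx1, hx2⟩ := exists_mode (H := H) hp (by linarith : p < 1)
  have hx2' : (x₀ : ℝ) ≤ μ + p := by
    refine hx2.trans (le_of_eq ?_)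
    rw [hμ]
    ring
  have hxU : x₀ + U ≤ H := by
    have : (x₀ : ℝ) + U ≤ H := by linarith
    exact_mod_cast this
  have hkH' : k ≤ H := by
    have : (k : ℝ) ≤ H := by linarith
    exact_mod_cast this
  -- the binomial probabilities at the nodes
  have hbx : 3 / (20 * Real.sqrt μ) ≤ bi H p x₀ := bi_max_ge hp (by linarith) (by linarith) hmax
  set y' : ℝ := (2 * U + 3) / μ with hy'
  have hyμ : y' * μ = 2 * U + 3 := by
    rw [hy']
    field_simp
  have hy'0 : 0 ≤ y' := by positivity
  have hy'1 : y' ≤ 1 / 2 := by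
    rw [hy', div_le_iff₀ hμ0]
    linarith
  have hnode : ∀ j, j ≤ k → 3 / (20 * Real.sqrt μ) * Real.exp (-(4 * k + 1)) ≤ bi H p (x₀ + j * s) := by
    intro j hj
    have hu : j * s ≤ U := Nat.mul_le_mul_right _ hj
    have h1 := bi_right hp (by linarith) hx2 hxU (y := y') hyμ hy'0 hy'1 hu
    refine le_trans ?_ h1
    refine mul_le_mul hbx (Real.exp_le_exp.2 ?_) (Real.exp_pos _).le
      (bi_nonneg hp.le (by linarith) _)
    have h2 : ((j * s : ℕ) : ℝ) ≤ U := by exact_mod_cast hu
    have h3 : 2 * y' * ((j * s : ℕ) : ℝ) ≤ 2 * y' * U := mul_le_mul_of_nonneg_left h2 (by positivity)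
    have h4 : y' * U ≤ 2 * k + 3 / 10 := by
      rw [hy', div_mul_eq_mul_div, div_le_iff₀ hμ0]
      nlinarith
    linarith
  -- the weights
  have hlam : ∀ j, j ≤ k → |lam x₀ s k y j| ≤ (8 * Real.exp 1 * M * r) ^ k := by
    intro j hj
    have hY : ∀ i, i ≤ k → |(y : ℝ) - ((x₀ : ℝ) + i * s)| ≤ 2 * M * μ := by
      intro i hi
      have h1 : ((i * s : ℕ) : ℝ) ≤ U := by exact_mod_cast Nat.mul_le_mul_right s hi
      push_cast at h1
      have h2 : (x₀ : ℝ) + i * s ≤ 2 * μ := by linarith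
      have h3 : 2 * μ ≤ 2 * M * μ := by nlinarith
      have h4 : (0:ℝ) ≤ y := Nat.cast_nonneg _
      have h5 : (0:ℝ) ≤ (x₀ : ℝ) + i * s := by positivity
      rw [abs_le]
      constructor <;> nlinarith
    refine (lam_le hk hs0' hj hY).trans (pow_le_pow_left₀ (by positivity) ?_ k)
    rw [div_le_iff₀ (by positivity)]
    have h1 : 8 * Real.exp 1 * M * r * ((r / 2) * k) ≤ 8 * Real.exp 1 * M * r * (s * k) := by
      apply mul_le_mul_of_nonneg_left _ (by positivity)
      exact mul_le_mul_of_nonneg_right hsr2 hk0.le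
    refine le_trans (le_of_eq ?_) h1
    rw [← hkr2]
    ring
  set t : ℝ := ((C * M * r) ^ k * (C * Real.sqrt μ))⁻¹ with ht
  have hsμ : 0 < Real.sqrt μ := Real.sqrt_pos.2 hμ0
  have hr0 : 0 < r := by linarith
  have hM0 : 0 < M := by linarith
  have hC0 : 0 < C := by linarith
  have ht0 : 0 < t := by positivity
  -- comparison
  have hcmp : t * (8 * Real.exp 1 * M * r) ^ k ≤ 3 / (20 * Real.sqrt μ) * Real.exp (-(4 * k + 1)) := by
    have h1 : t * (8 * Real.exp 1 * M * r) ^ k = (8 * Real.exp 1 / C) ^ k * (1 / (C * Real.sqrt μ)) := by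
      rw [ht, mul_inv, div_pow]
      rw [show (8 * Real.exp 1 * M * r) ^ k = (8 * Real.exp 1) ^ k * (M * r) ^ k by
        rw [← mul_pow]; congr 1; ring, show (C * M * r) ^ k = C ^ k * (M * r) ^ k by
        rw [← mul_pow]; congr 1; ring]
      field_simp
    have h2 : 8 * Real.exp 1 / C = Real.exp (-4) := by
      rw [hC, show (5:ℝ) = 1 + 4 by norm_num, Real.exp_add, Real.exp_neg]
      field_simp
    rw [h1, h2, ← Real.exp_nat_mul]
    have h3 : Real.exp (-(4 * (k:ℝ) + 1)) = Real.exp (k * (-4)) * Real.exp (-1) := by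
      rw [← Real.exp_add]
      congr 1
      ring
    rw [h3]
    have h4 : 1 / (C * Real.sqrt μ) ≤ 3 / (20 * Real.sqrt μ) * Real.exp (-1) := by
      rw [Real.exp_neg, ← div_eq_mul_inv, div_div, div_le_div_iff₀ (by positivity) (by positivity)]
      have h5 : Real.exp 1 ≤ 3 := Real.exp_one_lt_three.le
      have h6 : 6 ≤ Real.exp 5 := by
        have := Real.add_one_le_exp (5:ℝ)
        linarith
      have h7 : 20 * Real.exp 1 ≤ 3 * C := by
        rw [hC]
        linarith
      nlinarith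
    calc Real.exp (k * (-4)) * (1 / (C * Real.sqrt μ))
        ≤ Real.exp (k * (-4)) * (3 / (20 * Real.sqrt μ) * Real.exp (-1)) :=
          mul_le_mul_of_nonneg_left h4 (Real.exp_pos _).le
      _ = _ := by ring
  have hcmp' : t ≤ 3 / (20 * Real.sqrt μ) * Real.exp (-(4 * k + 1)) := by
    refine le_trans ?_ hcmp
    refine le_mul_of_one_le_right ht0.le (one_le_pow₀ ?_)
    have h1 : 1 ≤ Real.exp 1 := Real.one_le_exp (by norm_num)
    have h2 : 1 ≤ 8 * Real.exp 1 := by linarith
    have h3 : 1 ≤ 8 * Real.exp 1 * M := by nlinarith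
    nlinarith
  refine ⟨qy H p k x₀ s y t, ?_, fun j hj => qy_moment hs0' hyH hxU hkH' hj, ?_⟩
  · intro x
    unfold qy
    have hb : 0 ≤ bi H p x := bi_nonneg hp.le (by linarith) x
    have hi : 0 ≤ t * (if x = y then (1:ℝ) else 0) := by
      split_ifs
      · rw [mul_one]; exact ht0.le
      · simp
    by_cases hex : ∃ j, j ≤ k ∧ x = x₀ + j * s
    · obtain ⟨j, hj, rfl⟩ := hex
      have h1 : ∑ i ∈ range (k + 1), lam x₀ s k y i * (if x₀ + j * s = x₀ + i * s then (1:ℝ) else 0) =
          lam x₀ s k y j := by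
        rw [sum_eq_single j]
        · simp
        · intro i _ hij
          rw [if_neg, mul_zero]
          intro h
          apply hij
          have : j * s = i * s := by omega
          exact (Nat.eq_of_mul_eq_mul_right hs0' this).symm
        · intro h
          exact absurd (mem_range.2 (by omega)) h
      rw [h1]
      have h2 := hnode j hj
      have h3 : t * lam x₀ s k y j ≤ t * (8 * Real.exp 1 * M * r) ^ k :=
        mul_le_mul_of_nonneg_left ((le_abs_self _).trans (hlam j hj)) ht0.le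
      linarith
    · have h1 : ∑ i ∈ range (k + 1), lam x₀ s k y i * (if x = x₀ + i * s then (1:ℝ) else 0) = 0 := by
        refine sum_eq_zero fun i hi' => ?_
        rw [if_neg, mul_zero]
        intro h
        exact hex ⟨i, by rw [mem_range] at hi'; omega, h⟩
      rw [h1]
      linarith
  · unfold qy
    rw [if_pos rfl, mul_one]
    by_cases hex : ∃ j, j ≤ k ∧ y = x₀ + j * s
    · obtain ⟨j, hj, hyj⟩ := hex
      have h1 : ∑ i ∈ range (k + 1), lam x₀ s k y i * (if y = x₀ + i * s then (1:ℝ) else 0) = 1 := by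
        rw [sum_eq_single j]
        · rw [if_pos hyj, mul_one]
          have e : (y : ℝ) = (x₀ : ℝ) + j * s := by
            rw [hyj]
            push_cast
            rfl
          rw [e]
          exact lam_self hs0'
        · intro i _ hij
          rw [if_neg, mul_zero]
          intro h
          apply hij
          have : j * s = i * s := by omega
          exact (Nat.eq_of_mul_eq_mul_right hs0' this).symm
        · intro h
          exact absurd (mem_range.2 (by omega)) h
      rw [h1]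
      have h2 := hnode j hj
      rw [← hyj] at h2
      linarith
    · have h1 : ∑ i ∈ range (k + 1), lam x₀ s k y i * (if y = x₀ + i * s then (1:ℝ) else 0) = 0 := by
        refine sum_eq_zero fun i hi' => ?_
        rw [if_neg, mul_zero]
        intro h
        exact hex ⟨i, by rw [mem_range] at hi'; omega, h⟩
      rw [h1]
      have hb : 0 ≤ bi H p y := bi_nonneg hp.le (by linarith) y
      linarith

end Pool.Agent.H26.OS
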