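import Pool.Agent.H26.OS.Stm
import Pool.Agent.H50.OI.GLU

/-! # Project OS, stub SCE: gluing independent windows, Borel-Cantelli -/

set_option autoImplicit false

namespace Pool.Agent.H26.OS

open Finset MeasureTheory Filter Topology Q198.CI Pool.Agent.H50.OI

theorem sce : S_SCE := by
  classical
  intro W cnt κ K p δ Q hdisj hp hp1 hκ hδ0 hlaw hsum
  set good : ℕ → ℕ × ℕ → Prop := fun n ik => ik.2 < cnt ik.1 ∧ n ∈ W ik.1 ik.2 with hgood
  have huniq : ∀ n ik ik', good n ik → good n ik' → ik = ik' := by
    intro n ik ik' h1 h2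
    have := hdisj ik.1 ik.2 ik'.1 ik'.2 n h1.1 h2.1 h1.2 h2.2
    exact Prod.ext this.1 this.2
  set b : ℕ → (ℕ × ℕ) ⊕ ℕ := fun n => if h : ∃ ik, good n ik then Sum.inl h.choose else Sum.inr n
    with hb
  set I : (ℕ × ℕ) ⊕ ℕ → Finset ℕ := fun β => match β with
    | Sum.inl ik => if ik.2 < cnt ik.1 then W ik.1 ik.2 else ∅
    | Sum.inr n => if ∃ ik, good n ik then ∅ else {n} with hI
  have hbI : ∀ n β, n ∈ I β ↔ b n = β := by
    intro n β
    rcases β with ik | n'
    · simp only [hI, hb]
      constructor
      · intro h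
        split_ifs at h with h1
        · have hg : good n ik := ⟨h1, h⟩
          have hex : ∃ ik, good n ik := ⟨ik, hg⟩
          rw [dif_pos hex]
          exact congrArg Sum.inl (huniq n _ _ hex.choose_spec hg)
        · simp at h
      · intro h
        split_ifs at h with h1
        · have h2 := h1.choose_spec
          have h3 : h1.choose = ik := Sum.inl_injective h
          rw [h3] at h2
          rw [if_pos h2.1]
          exact h2.2
    · simp only [hI, hb]
      constructor
      · intro h
        split_ifs at h with h1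
        · simp at h
        · rw [mem_singleton] at h
          subst h
          rw [dif_neg h1]
      · intro h
        split_ifs at h with h1
        have h3 : n = n' := Sum.inr_injective h
        subst h3
        rw [if_neg h1, mem_singleton]
  set K' : (ℕ × ℕ) ⊕ ℕ → ℕ := fun β => match β with
    | Sum.inl ik => K ik.1
    | Sum.inr n => κ n with hK'
  have hex : ∀ β, ∃ w : Finset ℕ → ℝ, IsLaw (I β) (K' β) p w ∧
      ∀ i k, β = Sum.inl (i, k) → k < cnt i → δ i ≤ mass (W i k) w (Q i k) := by
    intro β
    rcases β with ⟨i, k⟩ | n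
    · by_cases hk : k < cnt i
      · obtain ⟨w, hw1, hw2⟩ := hlaw i k hk
        refine ⟨w, ?_, ?_⟩
        · simp only [hI, hK', if_pos hk]
          exact hw1
        · intro i' k' h _
          have h1 := Sum.inl_injective h
          have h2 : i = i' := congrArg Prod.fst h1
          have h3 : k = k' := congrArg Prod.snd h1
          rw [← h2, ← h3]
          exact hw2
      · refine ⟨_, law_prod _ hp hp1 _, ?_⟩
        intro i' k' h hk'
        have h1 := Sum.inl_injective h
        have h2 : i = i' := congrArg Prod.fst h1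
        have h3 : k = k' := congrArg Prod.snd h1
        subst h2 h3
        exact absurd hk' hk
    · refine ⟨_, law_prod _ hp hp1 _, ?_⟩
      intro i' k' h _
      cases h
  choose w hw1 hw2 using hex
  have hinst : ∀ β, IsProbabilityMeasure (bm (I β) (w β)) := fun β => bm_prob (hw1 β)
  refine ⟨(ℕ × ℕ) ⊕ ℕ → Finset ℕ, inferInstance, Measure.infinitePi (fun β => bm (I β) (w β)),
    inferInstance, fun n => {ω | n ∈ ω (b n)}, ?_, ?_, ?_⟩
  · intro n
    have h1 : MeasurableSet {S : Finset ℕ | n ∈ S} := MeasurableSet.of_discrete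
    have h2 : Measurable (fun ω : (ℕ × ℕ) ⊕ ℕ → Finset ℕ => ω (b n)) := measurable_pi_apply (b n)
    exact h2 h1
  · intro T hT'
    have hT : ∀ n ∈ T, T.card ≤ K' (b n) := by
      intro n hn
      refine (hT' n hn).trans ?_
      simp only [hb, hK']
      by_cases h1 : ∃ ik, good n ik
      · rw [dif_pos h1]
        exact hκ _ _ n h1.choose_spec.1 h1.choose_spec.2
      · rw [dif_neg h1]
    have e : (⋂ n ∈ T, {ω : (ℕ × ℕ) ⊕ ℕ → Finset ℕ | n ∈ ω (b n)}) =
        Set.pi (T.image b : Finset ((ℕ × ℕ) ⊕ ℕ))
          (fun β => {S : Finset ℕ | T.filter (fun n => b n = β) ⊆ S}) := by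
      ext ω
      simp only [Set.mem_iInter, Set.mem_ofPred_eq, Set.mem_pi, coe_image, Set.mem_image, mem_coe]
      constructor
      · rintro h β ⟨m, hm, rfl⟩ n hn
        rw [mem_filter] at hn
        have := h n hn.1
        rw [hn.2] at this
        exact this
      · intro h n hn
        exact h (b n) ⟨n, hn, rfl⟩ (mem_filter.2 ⟨hn, rfl⟩)
    rw [e, Measure.infinitePi_pi _ (fun β _ => MeasurableSet.of_discrete)]
    have h1 : ∀ β ∈ T.image b, bm (I β) (w β) {S : Finset ℕ | T.filter (fun n => b n = β) ⊆ S} =
        ENNReal.ofReal (∏ n ∈ T.filter (fun n => b n = β), p n) := by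
      intro β hβ
      rw [mem_image] at hβ
      obtain ⟨m, hm, rfl⟩ := hβ
      apply bm_superset (hw1 (b m))
      · intro n hn
        rw [mem_filter] at hn
        exact (hbI n (b m)).2 hn.2
      · exact (card_filter_le _ _).trans (hT m hm)
    rw [prod_congr rfl h1, ← ENNReal.ofReal_prod_of_nonneg (fun β _ => prod_nonneg fun n _ => hp n)]
    congr 1
    exact prod_fiberwise_of_maps_to (fun n hn => mem_image_of_mem b hn) p
  · -- Borel-Cantelli
    set bad : ℕ → Set ((ℕ × ℕ) ⊕ ℕ → Finset ℕ) := fun i => ⋂ k ∈ range (cnt i),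
      {ω | ¬ (ω (Sum.inl (i, k)) ⊆ W i k ∧ Q i k (ω (Sum.inl (i, k))))} with hbad
    have hprob : ∀ i, Measure.infinitePi (fun β => bm (I β) (w β)) (bad i) ≤
        ENNReal.ofReal (Real.exp (-((cnt i : ℝ) * δ i))) := by
      intro i
      set D : (ℕ × ℕ) ⊕ ℕ → Set (Finset ℕ) := fun β => match β with
        | Sum.inl ik => {S | ¬ (S ⊆ W ik.1 ik.2 ∧ Q ik.1 ik.2 S)}
        | Sum.inr _ => Set.univ with hD
      have e : bad i = Set.pi (((range (cnt i)).image
          (fun k => (Sum.inl (i, k) : (ℕ × ℕ) ⊕ ℕ)) : Finset ((ℕ × ℕ) ⊕ ℕ)) : Set _) D := by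
        ext ω
        simp only [hbad, Set.mem_iInter, Set.mem_ofPred_eq, Set.mem_pi, coe_image, Set.mem_image,
          mem_coe]
        constructor
        · rintro h β ⟨m, hm, rfl⟩
          exact h m hm
        · intro h m hm
          exact h (Sum.inl (i, m)) ⟨m, hm, rfl⟩
      rw [e, Measure.infinitePi_pi _ (fun β _ => MeasurableSet.of_discrete), prod_image]
      · have h2 : ∏ k ∈ range (cnt i), bm (I (Sum.inl (i, k))) (w (Sum.inl (i, k)))
            (D (Sum.inl (i, k))) ≤ ∏ k ∈ range (cnt i), ENNReal.ofReal (Real.exp (-δ i)) := by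
          refine prod_le_prod' fun k hk => ?_
          have hk' := mem_range.1 hk
          have hIk : I (Sum.inl (i, k)) = W i k := by
            simp only [hI, if_pos hk']
          have h3 : bm (I (Sum.inl (i, k))) (w (Sum.inl (i, k))) (D (Sum.inl (i, k))) =
              ENNReal.ofReal (1 - mass (I (Sum.inl (i, k))) (w (Sum.inl (i, k))) (Q i k)) := by
            have h4 := bm_bad (hw1 (Sum.inl (i, k))) (Q i k)
            rw [← h4]
            congr 1
            simp only [hD, hIk]
          rw [h3, hIk]
          apply ENNReal.ofReal_le_ofReal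
          have h5 := hw2 (Sum.inl (i, k)) i k rfl hk'
          have h6 := Real.add_one_le_exp (-δ i)
          linarith
        refine h2.trans ?_
        rw [prod_const, card_range, ← ENNReal.ofReal_pow (Real.exp_pos _).le, ← Real.exp_nat_mul]
        apply le_of_eq
        congr 2
        ring
      · intro k _ k' _ h
        have h1 := Sum.inl_injective h
        exact congrArg Prod.snd h1
    have hne : ∑' i, Measure.infinitePi (fun β => bm (I β) (w β)) (bad i) ≠ ⊤ :=
      ne_top_of_le_ne_top hsum.tsum_ofReal_ne_top (ENNReal.tsum_le_tsum hprob)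
    filter_upwards [ae_eventually_notMem hne] with ω hω
    filter_upwards [hω] with i hi
    simp only [hbad, Set.mem_iInter, Set.mem_ofPred_eq, not_forall, not_not] at hi
    obtain ⟨k, hk, h1, h2⟩ := hi
    have hk' := mem_range.1 hk
    have hIk : I (Sum.inl (i, k)) = W i k := by
      simp only [hI, if_pos hk']
    refine ⟨k, hk', ω (Sum.inl (i, k)), ?_, h2⟩
    intro n
    constructor
    · intro hn
      refine ⟨h1 hn, ?_⟩
      have h3 : b n = Sum.inl (i, k) := (hbI n _).1 (by rw [hIk]; exact h1 hn)
      change n ∈ ω (b n)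
      rw [h3]
      exact hn
    · rintro ⟨h3, h4⟩
      have h5 : b n = Sum.inl (i, k) := (hbI n _).1 (by rw [hIk]; exact h3)
      change n ∈ ω (b n) at h4
      rw [h5] at h4
      exact h4

end Pool.Agent.H26.OS
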