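import Pool.Agent.H26.OS.L.T1a
import Pool.Agent.H50.OI.Stm

/-! # Project OS (MP_b09185_nt): statements

Random models of the primes with independence of order `κ` (`Q198.CI.Model P κ E`: the events `E n`
are measurable and `P (⋂ n ∈ T, E n) = ∏ n ∈ T, 1 / log n` for every finite `T` with `3 ≤ n` and
`T.card ≤ κ n` for all `n ∈ T`); `R A a x` is the number of elements of `A` in
`(x, x + (log x)^a]` times `log x / (log x)^a`, `Lw`, `Up` its lower and upper limits.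

Aim: (1) if `κ n ≥ (c - o(1)) log n / log log n`, `c > 0`, then in every model almost surely
`R_a → 1` for all `a > 2 + 2/c`; (2) if `κ n ≤ (c + o(1)) log n / log log n`, `c ≥ 0`, then in some
model almost surely `L_a = 0` and `U_a = ∞` for all `a > 0` with `c (a - 2) < 2`; (3) for monotone
`κ` either `κ n ≥ c log n / log log n` for some `c > 0` and large `n`, or in some model almost
surely `L_a = 0`, `U_a = ∞` for all `a > 0`.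

From the imports: `IsLaw I K p w`, `cp n = 1 / log n` (`n ≥ 3`, else `0`), `law_of_q`, `thin`,
`bi`, `glue`, `bm` (namespace `Q198.CI`), `mass I w G` (the probability of the property `G`)
and `S_THK` (namespace `Pool.Agent.H50.OI`).
-/

set_option autoImplicit false

namespace Pool.Agent.H26.OS

open Finset MeasureTheory Filter Topology Q198.CI Pool.Agent.H50.OI

/-- the ratio of the number of elements of `A` in `(x, x + (log x)^a]` and `(log x)^a / log x` -/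
noncomputable def R (A : Set ℕ) (a x : ℝ) : ℝ := Real.log x / Real.log x ^ a *
  ({n : ℕ | n ∈ A ∧ x < n ∧ (n : ℝ) ≤ x + Real.log x ^ a}.ncard : ℝ)

/-- the lower limit -/
noncomputable def Lw (A : Set ℕ) (a : ℝ) : EReal := liminf (fun x : ℝ => ((R A a x : ℝ) : EReal)) atTop

/-- the upper limit -/
noncomputable def Up (A : Set ℕ) (a : ℝ) : EReal := limsup (fun x : ℝ => ((R A a x : ℝ) : EReal)) atTop

/-- `S_QAT`: a distribution with the binomial moments up to order `k` and a large mass at `y` -/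
def S_QAT : Prop := ∃ C : ℝ, 1 ≤ C ∧ ∀ (H k y : ℕ) (p M : ℝ), 0 < p → p ≤ 1 / 4 → 0 < k →
  100 * (k : ℝ) ≤ H * p → 1 ≤ M → (y : ℝ) ≤ M * (H * p) → y ≤ H →
  ∃ q : ℕ → ℝ, (∀ x, 0 ≤ q x) ∧
    (∀ j ≤ k, ∑ x ∈ range (H + 1), q x * (x.choose j : ℝ) = (H.choose j : ℝ) * p ^ j) ∧
    ((C * M * Real.sqrt (H * p / k)) ^ k * (C * Real.sqrt (H * p)))⁻¹ ≤ q y

/-- `S_NUM`: the numbers -/
def S_NUM : Prop := ∀ c a C M : ℝ, 0 < c → 2 < a → c * (a - 2) < 2 → 1 ≤ C → 1 ≤ M →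
  ∀ᶠ i : ℕ in atTop, ∀ (H k : ℕ) (p : ℝ), 0 < H → (H : ℝ) ≤ 2 * (i : ℝ) ^ a → 0 < p →
    p ≤ 1 / ((i : ℝ) * Real.log 2) → c * ((i : ℝ) * Real.log 2 / Real.log i) ≤ k →
    (k : ℝ) ≤ c * ((i : ℝ) * Real.log 2 / Real.log i) + 1 →
    (i : ℝ) ≤ ((2 ^ i / H : ℕ) : ℝ) *
      ((C * M * Real.sqrt (H * p / k)) ^ k * (C * Real.sqrt (H * p)))⁻¹

/-- `S_WIN`: laws on the windows of length `H` of the dyadic block `[2 ^ i, 2 ^ (i + 1))` -/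
def S_WIN : Prop := ∀ c a M : ℝ, 0 < c → 2 < a → c * (a - 2) < 2 → 1 ≤ M →
  ∀ᶠ i : ℕ in atTop, ∃ (H N K : ℕ) (δ : ℝ), 0 < H ∧ (i : ℝ) ^ a ≤ H ∧ N * H ≤ 2 ^ i ∧
    c * ((i : ℝ) * Real.log 2 / Real.log i) ≤ K ∧ 0 ≤ δ ∧ (i : ℝ) ≤ N * δ ∧
    ∀ s : ℕ, 2 ^ i ≤ s → s + H ≤ 2 ^ (i + 1) →
      (∃ w : Finset ℕ → ℝ, IsLaw (Ico s (s + H)) K cp w ∧
        δ ≤ mass (Ico s (s + H)) w (fun A => A = ∅)) ∧
      ∃ w : Finset ℕ → ℝ, IsLaw (Ico s (s + H)) K cp w ∧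
        δ ≤ mass (Ico s (s + H)) w (fun A => M * H ≤ i * (A.card : ℝ))

/-- `S_SCE`: gluing independent windows; almost surely in all large scales `i` the property `Q i k`
holds in some window `W i k` -/
def S_SCE : Prop := ∀ (W : ℕ → ℕ → Finset ℕ) (cnt κ K : ℕ → ℕ) (p δ : ℕ → ℝ)
  (Q : ℕ → ℕ → Finset ℕ → Prop),
  (∀ i k i' k' n, k < cnt i → k' < cnt i' → n ∈ W i k → n ∈ W i' k' → i = i' ∧ k = k') →
  (∀ n, 0 ≤ p n) → (∀ n, p n ≤ 1) → (∀ i k n, k < cnt i → n ∈ W i k → κ n ≤ K i) →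
  (∀ i, 0 ≤ δ i) →
  (∀ i k, k < cnt i → ∃ w : Finset ℕ → ℝ, IsLaw (W i k) (K i) p w ∧
    δ i ≤ mass (W i k) w (Q i k)) →
  Summable (fun i => Real.exp (-((cnt i : ℝ) * δ i))) →
  ∃ (Ω : Type) (_ : MeasurableSpace Ω) (P : Measure Ω) (_ : IsProbabilityMeasure P)
    (E : ℕ → Set Ω), (∀ n, MeasurableSet (E n)) ∧
    (∀ T : Finset ℕ, (∀ n ∈ T, T.card ≤ κ n) →
      P (⋂ n ∈ T, E n) = ENNReal.ofReal (∏ n ∈ T, p n)) ∧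
    ∀ᵐ ω ∂P, ∀ᶠ i : ℕ in atTop, ∃ k, k < cnt i ∧
      ∃ A : Finset ℕ, (∀ n, n ∈ A ↔ n ∈ W i k ∧ ω ∈ E n) ∧ Q i k A

/-- an empty interval of length at least `i ^ a` -/
def VoidAt (A : Set ℕ) (a : ℝ) (r : ℕ) : Prop := ∃ i s H : ℕ, r ≤ i ∧ 2 ^ i ≤ s ∧
  s + H ≤ 2 ^ (i + 1) ∧ (i : ℝ) ^ a ≤ H ∧ ∀ n : ℕ, s ≤ n → n < s + H → n ∉ A

/-- an interval of length `H ≥ i ^ a` with at least `r H / i` elements -/
def RichAt (A : Set ℕ) (a : ℝ) (r : ℕ) : Prop := ∃ i s H : ℕ, r ≤ i ∧ 2 ^ i ≤ s ∧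
  s + H ≤ 2 ^ (i + 1) ∧ (i : ℝ) ^ a ≤ H ∧
  ∃ B : Finset ℕ, (∀ n ∈ B, n ∈ A ∧ s ≤ n ∧ n < s + H) ∧ (r : ℝ) * H ≤ i * (B.card : ℝ)

/-- `κ n ≤ c log 2 ^ i / log i` in the dyadic block of `2 ^ i` -/
def Blk (κ : ℕ → ℕ) (c : ℝ) (i : ℕ) : Prop := ∀ n : ℕ, 2 ^ i ≤ n → n < 2 ^ (i + 1) →
  (κ n : ℝ) ≤ c * ((i : ℝ) * Real.log 2 / Real.log i)

/-- `S_GEN`: the model with empty and rich intervals -/
def S_GEN : Prop := ∀ (κ : ℕ → ℕ) (cr ar : ℕ → ℝ),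
  (∀ r, 0 < cr r ∧ 2 < ar r ∧ cr r * (ar r - 2) < 2) → (∀ r, ∃ᶠ i : ℕ in atTop, Blk κ (cr r) i) →
  ∃ (Ω : Type) (_ : MeasurableSpace Ω) (P : Measure Ω) (_ : IsProbabilityMeasure P)
    (E : ℕ → Set Ω), Model P κ E ∧ ∀ᵐ ω ∂P, ∀ᶠ r : ℕ in atTop,
      VoidAt {n | ω ∈ E n} (ar r) r ∧ RichAt {n | ω ∈ E n} (ar r) r

/-- `S_DV`: empty intervals give `L_a = 0` -/
def S_DV : Prop := ∀ (A : Set ℕ) (a : ℝ), 0 < a →
  (∀ r₀ : ℕ, ∃ r ≥ r₀, ∃ b : ℝ, a ≤ b ∧ VoidAt A b r) → Lw A a = 0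

/-- `S_DR`: rich intervals give `U_a = ∞` -/
def S_DR : Prop := ∀ (A : Set ℕ) (a : ℝ), 0 < a →
  (∀ r₀ : ℕ, ∃ r ≥ r₀, ∃ b : ℝ, a ≤ b ∧ RichAt A b r) → Up A a = ⊤

/-- `κ n ≥ (c - o(1)) log n / log log n` -/
def AtL (κ : ℕ → ℕ) (c : ℝ) : Prop := ∀ d : ℝ, d < c → ∀ᶠ n : ℕ in atTop,
  d * (Real.log n / Real.log (Real.log n)) ≤ κ n

/-- `κ n ≤ (c + o(1)) log n / log log n` -/
def AtM (κ : ℕ → ℕ) (c : ℝ) : Prop := ∀ d : ℝ, c < d → ∀ᶠ n : ℕ in atTop,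
  (κ n : ℝ) ≤ d * (Real.log n / Real.log (Real.log n))

/-- `S_ALM` -/
def S_ALM : Prop := ∀ (κ : ℕ → ℕ) (c c' : ℝ), 0 ≤ c → c < c' → AtM κ c →
  ∀ᶠ i : ℕ in atTop, Blk κ c' i

/-- `S_FRQ` -/
def S_FRQ : Prop := ∀ κ : ℕ → ℕ, Monotone κ →
  (¬ ∃ c : ℝ, 0 < c ∧ ∀ᶠ n : ℕ in atTop, c * (Real.log n / Real.log (Real.log n)) ≤ κ n) →
  ∀ c : ℝ, 0 < c → ∃ᶠ i : ℕ in atTop, Blk κ c i

/-- `S_UPE`: the numbers for the upper bound -/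
def S_UPE : Prop := ∀ c b δ : ℝ, 0 < c → 2 + 2 / c < b → 0 < δ → δ ≤ 1 → ∀ᶠ i : ℕ in atTop,
  ∃ m g : ℕ, 0 < m ∧ 0 < g ∧
    (∀ n : ℕ, 2 ^ (i - 1) ≤ n → (2 * m : ℝ) ≤ c * (Real.log n / Real.log (Real.log n))) ∧
    2 * (m : ℝ) * (((i : ℝ) + 3) * Real.log 2) ≤ g ∧ (g : ℝ) ≤ δ * ((i : ℝ) * Real.log 2) ^ b ∧
    (g : ℝ) ≤ 2 ^ (i - 1) ∧
    (2 : ℝ) ^ (i + 3) / g * (2 * (Real.exp 2 * (2 * m) * (((i : ℝ) + 3) * Real.log 2) /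
      (δ ^ 2 * g)) ^ m) ≤ 1 / (i : ℝ) ^ 2

/-- `S_UPP`: the asymptotic formula in every model -/
def S_UPP : Prop := ∀ (Ω : Type) [MeasurableSpace Ω] (P : Measure Ω) [IsProbabilityMeasure P]
  (κ : ℕ → ℕ) (E : ℕ → Set Ω) (c : ℝ), 0 < c → Model P κ E → AtL κ c →
  ∀ᵐ ω ∂P, ∀ a : ℝ, 2 + 2 / c < a → Tendsto (R {n | ω ∈ E n} a) atTop (𝓝 1)

end Pool.Agent.H26.OS
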