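import Pool.Agent.H26.OS.Stm

/-! OS-UPE (by helper4): the numbers for the upper bound. -/

set_option autoImplicit false

namespace Pool.Agent.H26.OS

open Finset MeasureTheory Filter Topology Q198.CI Pool.Agent.H50.OI

/-! ### proof -/

theorem upe_quot {u v : ℝ} (hu : Real.exp 1 ≤ u) (huv : u ≤ v) :
    u / Real.log u ≤ v / Real.log v := by
  have hv : Real.exp 1 ≤ v := hu.trans huv
  have h := Real.log_div_self_antitoneOn (a := u) (b := v) hu hv huv
  have e1 : 1 < Real.exp 1 := by
    have := Real.add_one_lt_exp (x := 1) (by norm_num); linarith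
  have hu1 : 0 < Real.log u := Real.log_pos (by linarith)
  have hv1 : 0 < Real.log v := Real.log_pos (by linarith)
  have hu0 : 0 < u := by linarith
  have hv0 : 0 < v := by linarith
  rw [div_le_div_iff₀ hu1 hv1]
  simp only at h
  rw [div_le_div_iff₀ hv0 hu0] at h
  linarith

theorem upe_lim (c b D : ℝ) :
    Tendsto (fun x : ℝ => c / 2 * (b - 2) * Real.log 2 * (1 - 1 / x)
      - c / 2 * (1 - 1 / x) * Real.log 2 * D / Real.log x - (b - 2) * (Real.log x / x) + D / x
      - Real.log 2 - 4 * Real.log 2 / x - 2 * (Real.log x / x)) atTop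
      (𝓝 (c / 2 * (b - 2) * Real.log 2 * (1 - 0) - 0 - (b - 2) * 0 + 0 - Real.log 2 - 0 - 2 * 0)) := by
  have h1 : Tendsto (fun x : ℝ => 1 / x) atTop (𝓝 0) := Tendsto.const_div_atTop tendsto_id 1
  have h2 : Tendsto (fun x : ℝ => D / x) atTop (𝓝 0) := Tendsto.const_div_atTop tendsto_id D
  have h3 : Tendsto (fun x : ℝ => 4 * Real.log 2 / x) atTop (𝓝 0) :=
    Tendsto.const_div_atTop tendsto_id _
  have h4 : Tendsto (fun x : ℝ => Real.log x / x) atTop (𝓝 0) := by
    have := (isLittleO_log_rpow_atTop (show (0 : ℝ) < 1 by norm_num)).tendsto_div_nhds_zero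
    simpa using this
  have h5 : Tendsto (fun x : ℝ => c / 2 * (1 - 1 / x) * Real.log 2 * D / Real.log x) atTop (𝓝 0) := by
    have h6 : Tendsto (fun x : ℝ => c / 2 * (1 - 1 / x) * Real.log 2 * D) atTop
        (𝓝 (c / 2 * (1 - 0) * Real.log 2 * D)) :=
      (((tendsto_const_nhds.sub h1).const_mul (c / 2)).mul_const _).mul_const _
    have h7 := h6.mul (tendsto_inv_atTop_zero.comp Real.tendsto_log_atTop)
    rw [mul_zero] at h7
    exact h7.congr (fun x => by simp [div_eq_mul_inv])
  exact ((((((tendsto_const_nhds.sub h1).const_mul _).sub h5).sub (h4.const_mul _)).add h2).sub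
    tendsto_const_nhds |>.sub h3).sub (h4.const_mul _)

theorem upe : S_UPE := by
  intro c b δ hc hb hδ hδ1
  have hb2 : 2 < b := by
    have : 0 < 2 / c := by positivity
    linarith
  have hcb : 1 < c / 2 * (b - 2) := by
    have h1 : 2 / c < b - 2 := by linarith
    rw [div_lt_iff₀ hc] at h1
    linarith
  have hl2 : 0 < Real.log 2 := Real.log_pos (by norm_num)
  have hl2' : Real.log 2 < 1 := by
    have := Real.log_two_lt_d9; linarith
  set D0 : ℝ := 8 * c * Real.exp 2 / (δ ^ 3 * Real.log 2 ^ b) with hD0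
  have hD0p : 0 < D0 := by positivity
  set D : ℝ := D0 + 1 with hD
  have hlD : 0 ≤ Real.log D := Real.log_nonneg (by linarith)
  -- eventual conditions
  have ev1 : ∀ᶠ x : ℝ in atTop, Real.exp 1 ≤ (x - 1) * Real.log 2 := by
    have : Tendsto (fun x : ℝ => (x - 1) * Real.log 2) atTop atTop :=
      (tendsto_atTop_add_const_right atTop (-1) tendsto_id).atTop_mul_const hl2
    exact this.eventually_ge_atTop _
  have ev3 : ∀ᶠ x : ℝ in atTop, 4 * c * x ^ 2 + 2 ≤ δ / 2 * (x * Real.log 2) ^ b := by
    have h1 : Tendsto (fun x : ℝ => (4 * c + 2) * (x ^ (2 : ℝ) / x ^ b)) atTop (𝓝 ((4 * c + 2) * 0)) := by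
      apply Tendsto.const_mul
      have := tendsto_rpow_neg_atTop (show (0 : ℝ) < b - 2 by linarith)
      refine this.congr' ?_
      filter_upwards [eventually_gt_atTop 0] with x hx
      rw [← Real.rpow_sub hx]; congr 1; ring
    rw [mul_zero] at h1
    have h2 : (0 : ℝ) < δ / 2 * Real.log 2 ^ b := by positivity
    filter_upwards [h1.eventually_lt_const h2, eventually_ge_atTop 1] with x hx hx1
    have hx0 : 0 < x := by linarith
    have hxb : 0 < x ^ b := Real.rpow_pos_of_pos hx0 _
    rw [Real.mul_rpow hx0.le hl2.le]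
    rw [← mul_div_assoc, div_lt_iff₀ hxb, Real.rpow_two] at hx
    nlinarith [sq_nonneg x, one_le_pow₀ hx1 (n := 2)]
  have ev4 : ∀ᶠ x : ℝ in atTop, δ * (x * Real.log 2) ^ b ≤ (2 : ℝ) ^ (x - 1) := by
    have h1 := (isLittleO_rpow_exp_pos_mul_atTop b hl2).tendsto_div_nhds_zero
    have h3 : (0 : ℝ) < 1 / (2 * (δ * Real.log 2 ^ b)) := by positivity
    filter_upwards [h1.eventually_lt_const h3, eventually_ge_atTop 1] with x hx hx1
    have hx0 : 0 < x := by linarith
    rw [div_lt_iff₀ (Real.exp_pos _)] at hx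
    have h4 : Real.exp (Real.log 2 * x) = 2 ^ x := by
      rw [Real.rpow_def_of_pos (by norm_num)]
    rw [h4] at hx
    rw [Real.mul_rpow hx0.le hl2.le, Real.rpow_sub (by norm_num), Real.rpow_one]
    have h5 : 0 < 2 * (δ * Real.log 2 ^ b) := by positivity
    have h6 := mul_lt_mul_of_pos_left hx h5
    have h7 : 2 * (δ * Real.log 2 ^ b) * (1 / (2 * (δ * Real.log 2 ^ b)) * (2 : ℝ) ^ x) = 2 ^ x := by
      field_simp
    rw [h7] at h6
    linarith
  have ev5 : ∀ᶠ x : ℝ in atTop, 0 < c / 2 * (b - 2) * Real.log 2 * (1 - 1 / x)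
      - c / 2 * (1 - 1 / x) * Real.log 2 * Real.log D / Real.log x - (b - 2) * (Real.log x / x) +
      Real.log D / x - Real.log 2 - 4 * Real.log 2 / x - 2 * (Real.log x / x) := by
    apply (upe_lim c b (Real.log D)).eventually_const_lt
    nlinarith
  have ev6 : ∀ᶠ x : ℝ in atTop, Real.log D ≤ (b - 2) * Real.log x :=
    (Real.tendsto_log_atTop.const_mul_atTop (show (0 : ℝ) < b - 2 by linarith)).eventually_ge_atTop _
  have ev7 : ∀ᶠ x : ℝ in atTop, 2 * Real.log x ≤ c / 2 * ((x - 1) * Real.log 2) := by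
    have h4 : Tendsto (fun x : ℝ => Real.log x / x) atTop (𝓝 0) := by
      have := (isLittleO_log_rpow_atTop (show (0 : ℝ) < 1 by norm_num)).tendsto_div_nhds_zero
      simpa using this
    have h5 : (0 : ℝ) < c * Real.log 2 / 8 := by positivity
    filter_upwards [h4.eventually_lt_const h5, eventually_ge_atTop 2] with x hx hx2
    rw [div_lt_iff₀ (by linarith)] at hx
    have : 0 < c * Real.log 2 := by positivity
    nlinarith
  have hall := (ev1.and (ev3.and (ev4.and (ev5.and (ev6.and (ev7.and (eventually_ge_atTop (10 : ℝ))))))))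
  have hall' := tendsto_natCast_atTop_atTop (R := ℝ) |>.eventually hall
  filter_upwards [hall'] with i hi
  obtain ⟨h1, h3, h4, h5, h6, h7, h10⟩ := hi
  have hi10 : 10 ≤ i := by exact_mod_cast h10
  set x : ℝ := (i : ℝ) with hx
  have hx0 : 0 < x := by linarith
  have hlx : 0 < Real.log x := Real.log_pos (by linarith)
  set u : ℝ := (x - 1) * Real.log 2 with hu
  have hexp1 : 1 < Real.exp 1 := by
    have := Real.add_one_lt_exp (x := 1) (by norm_num); linarith
  have hu1 : 1 < u := by linarith
  have hlu : 1 ≤ Real.log u := by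
    rw [← Real.log_exp 1]; exact Real.log_le_log (Real.exp_pos 1) h1
  have hux : u ≤ x := by
    rw [hu]; nlinarith
  have hlux : Real.log u ≤ Real.log x := Real.log_le_log (by linarith) hux
  set m : ℕ := ⌊c / 2 * (u / Real.log u)⌋₊ with hm
  set g : ℕ := ⌊δ * (x * Real.log 2) ^ b⌋₊ with hg
  have hm1 : (m : ℝ) ≤ c / 2 * (u / Real.log u) := Nat.floor_le (by positivity)
  have hm2 : c / 2 * (u / Real.log u) < m + 1 := Nat.lt_floor_add_one _
  have hg1 : (g : ℝ) ≤ δ * (x * Real.log 2) ^ b := Nat.floor_le (by positivity)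
  have hg2 : δ * (x * Real.log 2) ^ b < g + 1 := Nat.lt_floor_add_one _
  have hxb : 0 < (x * Real.log 2) ^ b := by positivity
  have hmlow : c / 2 * (u / Real.log x) - 1 ≤ m := by
    have : c / 2 * (u / Real.log x) ≤ c / 2 * (u / Real.log u) := by
      apply mul_le_mul_of_nonneg_left _ (by positivity)
      exact div_le_div_of_nonneg_left (by linarith) (by linarith) hlux
    linarith
  have hmpos : 1 ≤ (m : ℝ) := by
    have : 2 ≤ c / 2 * (u / Real.log x) := by
      rw [← mul_div_assoc, le_div_iff₀ hlx]; linarith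
    linarith
  have hmx : 2 * (m : ℝ) ≤ c * x := by
    have : u / Real.log u ≤ x := by
      rw [div_le_iff₀ (by linarith)]; nlinarith
    nlinarith
  have hglow : δ / 2 * (x * Real.log 2) ^ b ≤ g := by nlinarith
  have hgpos : 1 ≤ (g : ℝ) := by nlinarith [sq_nonneg x]
  have hx3 : (x + 3) * Real.log 2 ≤ 4 * x := by nlinarith
  have hmg : 2 * (m : ℝ) * ((x + 3) * Real.log 2) ≤ 4 * c * x ^ 2 := by
    calc 2 * (m : ℝ) * ((x + 3) * Real.log 2) ≤ (c * x) * (4 * x) :=
          mul_le_mul hmx hx3 (by positivity) (by positivity)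
      _ = 4 * c * x ^ 2 := by ring
  refine ⟨m, g, by exact_mod_cast hmpos, by exact_mod_cast hgpos, ?_, by linarith, hg1, ?_, ?_⟩
  · intro n hn
    have hn1 : (2 : ℝ) ^ (i - 1) ≤ n := by exact_mod_cast hn
    have hln : u ≤ Real.log n := by
      have := Real.log_le_log (by positivity) hn1
      rw [Real.log_pow, Nat.cast_sub (by omega)] at this
      simpa [hu, hx] using this
    have := upe_quot h1 hln
    nlinarith
  · refine hg1.trans (h4.trans (le_of_eq ?_))
    rw [← Real.rpow_natCast, Nat.cast_sub (by omega)]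
    simp [hx]
  · -- the main inequality
    have hB : Real.exp 2 * (2 * m) * ((x + 3) * Real.log 2) / (δ ^ 2 * g) ≤ D * x ^ (2 - b) := by
      have hn1 : Real.exp 2 * (2 * m) * ((x + 3) * Real.log 2) ≤ Real.exp 2 * (4 * c * x ^ 2) := by
        calc Real.exp 2 * (2 * m) * ((x + 3) * Real.log 2) =
            Real.exp 2 * (2 * m * ((x + 3) * Real.log 2)) := by ring
          _ ≤ _ := mul_le_mul_of_nonneg_left hmg (Real.exp_pos 2).le
      have hn2 : δ ^ 2 * (δ / 2 * (x * Real.log 2) ^ b) ≤ δ ^ 2 * g :=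
        mul_le_mul_of_nonneg_left hglow (by positivity)
      calc Real.exp 2 * (2 * m) * ((x + 3) * Real.log 2) / (δ ^ 2 * g)
          ≤ Real.exp 2 * (4 * c * x ^ 2) / (δ ^ 2 * (δ / 2 * (x * Real.log 2) ^ b)) :=
            div_le_div₀ (by positivity) hn1 (by positivity) hn2
        _ = D0 * x ^ (2 - b) := by
            rw [Real.mul_rpow hx0.le hl2.le, Real.rpow_sub hx0, Real.rpow_two, hD0]
            have : 0 < x ^ b := Real.rpow_pos_of_pos hx0 _
            have : 0 < Real.log 2 ^ b := Real.rpow_pos_of_pos hl2 _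
            field_simp
            ring
        _ ≤ D * x ^ (2 - b) := by
            apply mul_le_mul_of_nonneg_right _ (Real.rpow_nonneg hx0.le _)
            linarith
    have hB0 : 0 ≤ Real.exp 2 * (2 * m) * ((x + 3) * Real.log 2) / (δ ^ 2 * g) := by positivity
    have hDp : 0 < D := by linarith
    have hDx : D * x ^ (2 - b) = Real.exp (Real.log D - (b - 2) * Real.log x) := by
      rw [Real.exp_sub, Real.exp_log hDp, Real.rpow_def_of_pos hx0, div_eq_mul_inv, ← Real.exp_neg]
      congr 2; ring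
    have hpow : (Real.exp 2 * (2 * m) * ((x + 3) * Real.log 2) / (δ ^ 2 * g)) ^ m ≤
        Real.exp (m * (Real.log D - (b - 2) * Real.log x)) := by
      rw [Real.exp_nat_mul, ← hDx]
      exact pow_le_pow_left₀ hB0 hB m
    have hmm : (m : ℝ) * (Real.log D - (b - 2) * Real.log x) ≤
        (c / 2 * (u / Real.log x) - 1) * (Real.log D - (b - 2) * Real.log x) :=
      mul_le_mul_of_nonpos_right hmlow (by linarith)
    have hkey : (x + 3) * Real.log 2 + Real.log 2 + (c / 2 * (u / Real.log x) - 1) *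
        (Real.log D - (b - 2) * Real.log x) + 2 * Real.log x ≤ 0 := by
      have e : (x + 3) * Real.log 2 + Real.log 2 + (c / 2 * (u / Real.log x) - 1) *
        (Real.log D - (b - 2) * Real.log x) + 2 * Real.log x = -(x * (c / 2 * (b - 2) * Real.log 2 * (1 - 1 / x)
      - c / 2 * (1 - 1 / x) * Real.log 2 * Real.log D / Real.log x - (b - 2) * (Real.log x / x) +
      Real.log D / x - Real.log 2 - 4 * Real.log 2 / x - 2 * (Real.log x / x))) := by
        rw [hu]; field_simp; ring
      rw [e]
      have := mul_pos hx0 h5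
      linarith
    have e2 : (2 : ℝ) ^ (i + 3) = Real.exp ((x + 3) * Real.log 2) := by
      rw [mul_comm, ← Real.rpow_def_of_pos (by norm_num), ← Real.rpow_natCast]
      push_cast; rfl
    have e3 : 1 / x ^ 2 = Real.exp (-(2 * Real.log x)) := by
      rw [Real.exp_neg, mul_comm, ← Real.rpow_def_of_pos hx0, Real.rpow_two, one_div]
    have e4 : (2 : ℝ) = Real.exp (Real.log 2) := (Real.exp_log (by norm_num)).symm
    calc (2 : ℝ) ^ (i + 3) / g * (2 * (Real.exp 2 * (2 * m) * ((x + 3) * Real.log 2) / (δ ^ 2 * g)) ^ m)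
        ≤ (2 : ℝ) ^ (i + 3) * (2 * Real.exp (m * (Real.log D - (b - 2) * Real.log x))) := by
          apply mul_le_mul (div_le_self (by positivity) hgpos) _ (by positivity) (by positivity)
          exact mul_le_mul_of_nonneg_left hpow (by norm_num)
      _ = Real.exp ((x + 3) * Real.log 2 + Real.log 2 + m * (Real.log D - (b - 2) * Real.log x)) := by
          rw [Real.exp_add, Real.exp_add, ← e4, ← e2]; ring
      _ ≤ Real.exp (-(2 * Real.log x)) := by
          apply Real.exp_le_exp.mpr; linarith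
      _ = 1 / x ^ 2 := e3.symm

end Pool.Agent.H26.OS
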