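import Pool.Agent.H26.OS.Stm

/-! OS-UPP (helper67): the asymptotic formula in every model, from `S_UPE`. -/

set_option autoImplicit false

namespace Pool.Agent.H26.OS

open Finset MeasureTheory Filter Topology Q198.CI Pool.Agent.H50.OI

/-- `ω` is in the good event at scale `i`, for some length `g` of the grid -/
def GG {Ω : Type} (E : ℕ → Set Ω) (b δ : ℝ) (ω : Ω) (i : ℕ) : Prop :=
  ∃ g : ℕ, 0 < g ∧ g ≤ 2 ^ (i - 1) ∧ (g : ℝ) ≤ δ * ((i : ℝ) * Real.log 2) ^ b ∧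
    ω ∈ good E g δ i

lemma upp_scale (hU : S_UPE) {Ω : Type} [MeasurableSpace Ω] {P : Measure Ω}
    [IsProbabilityMeasure P] {κ : ℕ → ℕ} {E : ℕ → Set Ω} {c : ℝ} (hc : 0 < c)
    (hM : Model P κ E) (hA : AtL κ c) {b δ : ℝ} (hb : 2 + 2 / c < b) (hδ : 0 < δ)
    (hδ1 : δ ≤ 1) : ∀ᵐ ω ∂P, ∀ᶠ i : ℕ in atTop, GG E b δ ω i := by
  have hcp : 0 < 2 / c := by positivity
  have hb2 : 0 < b - 2 := by linarith
  have hbc : 2 / (b - 2) < c := by
    rw [div_lt_iff₀ hb2]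
    have h1 : 2 / c < b - 2 := by linarith
    rw [div_lt_iff₀ hc] at h1
    linarith
  have hd0 : 0 < 2 / (b - 2) := by positivity
  set d : ℝ := (2 / (b - 2) + c) / 2 with hd
  have hd1 : 2 / (b - 2) < d := by rw [hd]; linarith
  have hd2 : d < c := by rw [hd]; linarith
  have hdpos : 0 < d := by linarith
  have hdb : 2 + 2 / d < b := by
    rw [div_lt_iff₀ hb2] at hd1
    have h1 : 2 / d < b - 2 := by
      rw [div_lt_iff₀ hdpos]
      linarith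
    linarith
  obtain ⟨n₀, hn₀⟩ := eventually_atTop.1 (hA d hd2)
  have hev : ∀ᶠ i : ℕ in atTop, ∃ g : ℕ, (0 < g ∧ g ≤ 2 ^ (i - 1) ∧
      (g : ℝ) ≤ δ * ((i : ℝ) * Real.log 2) ^ b) ∧
      P (good E g δ i)ᶜ ≤ ENNReal.ofReal (1 / (i : ℝ) ^ 2) := by
    filter_upwards [hU d b δ hdpos hdb hδ hδ1, eventually_ge_atTop (n₀ + 3)] with i h1 h2
    obtain ⟨m, g, hm, hg, h3, h4, h5, h6, h7⟩ := h1
    refine ⟨g, ⟨hg, ?_, h5⟩, ?_⟩
    · exact_mod_cast h6
    · refine (good_prob hM hm (by omega) hg (fun n hn => ?_) h4 hδ hδ1).trans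
        (ENNReal.ofReal_le_ofReal h7)
      have h8 : i - 1 < 2 ^ (i - 1) := Nat.lt_two_pow_self
      have h9 := (h3 n hn).trans (hn₀ n (by omega))
      exact_mod_cast h9
  obtain ⟨i₁, hi₁⟩ := eventually_atTop.1 hev
  choose! g hg using hi₁
  have hsum : ∑' i, P (if i₁ ≤ i then (good E (g i) δ i)ᶜ else ∅) ≠ ⊤ := by
    have h1 : Summable (fun i : ℕ => 1 / (i:ℝ) ^ 2) :=
      Real.summable_one_div_nat_pow.2 (by norm_num)
    refine ne_top_of_le_ne_top h1.tsum_ofReal_ne_top (ENNReal.tsum_le_tsum fun i => ?_)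
    split_ifs with h
    · exact (hg i h).2
    · simp
  filter_upwards [ae_eventually_notMem hsum] with ω hω
  filter_upwards [hω, eventually_ge_atTop i₁] with i h1 h2
  rw [if_pos h2] at h1
  obtain ⟨h3, h4, h5⟩ := (hg i h2).1
  exact ⟨g i, h3, h4, h5, by simpa using h1⟩

lemma R_eq {Ω : Type} (E : ℕ → Set Ω) (ω : Ω) {a x : ℝ} (hx : 1 ≤ x) :
    R {n | ω ∈ E n} a x = (∑ n ∈ Ioc ⌊x⌋₊ ⌊x + Real.log x ^ a⌋₊,
      (E n).indicator (fun _ => (1:ℝ)) ω) * Real.log x / Real.log x ^ a := by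
  classical
  have hl : 0 ≤ Real.log x := Real.log_nonneg hx
  have hH : 0 ≤ Real.log x ^ a := Real.rpow_nonneg hl a
  have h1 : {n : ℕ | n ∈ {n | ω ∈ E n} ∧ x < n ∧ (n : ℝ) ≤ x + Real.log x ^ a} =
      (((Ioc ⌊x⌋₊ ⌊x + Real.log x ^ a⌋₊).filter (fun n => ω ∈ E n) : Finset ℕ) : Set ℕ) := by
    ext n
    simp only [Set.mem_ofPred_eq, coe_filter, mem_Ioc, Nat.floor_lt (by linarith : 0 ≤ x),
      Nat.le_floor_iff (by linarith : 0 ≤ x + Real.log x ^ a)]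
    tauto
  unfold R
  rw [h1, Set.ncard_coe_finset, card_filter]
  push_cast
  have h2 : ∀ n ∈ Ioc ⌊x⌋₊ ⌊x + Real.log x ^ a⌋₊, (if ω ∈ E n then (1:ℝ) else 0) =
      (E n).indicator (fun _ => (1:ℝ)) ω := fun n _ => by rw [Set.indicator_apply]
  rw [sum_congr rfl h2]
  ring

theorem upp (hU : S_UPE) : S_UPP := by
  intro Ω _ P _ κ E c hc hM hA
  have hl2 : 1 / 2 ≤ Real.log 2 := by
    have := Real.log_two_gt_d9
    linarith
  have hall : ∀ᵐ ω ∂P, ∀ r s : ℕ, ∀ᶠ i : ℕ in atTop,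
      GG E (2 + 2 / c + 1 / ((s:ℝ) + 1)) (1 / ((r:ℝ) + 4)) ω i := by
    rw [ae_all_iff]
    intro r
    rw [ae_all_iff]
    intro s
    have hs : 0 < 1 / ((s:ℝ) + 1) := by positivity
    refine upp_scale hU hc hM hA (by linarith) (by positivity) ?_
    rw [div_le_one (by positivity)]
    have : (0:ℝ) ≤ r := Nat.cast_nonneg r
    linarith
  filter_upwards [hall] with ω hω a ha
  rw [Metric.tendsto_nhds]
  intro η hη
  obtain ⟨r, hr⟩ := exists_nat_ge (20 / η)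
  set δ : ℝ := 1 / ((r:ℝ) + 4) with hδd
  have hr0 : (0:ℝ) ≤ r := Nat.cast_nonneg r
  have hδ : 0 < δ := by positivity
  have hδ1 : δ ≤ 1 / 4 := one_div_le_one_div_of_le (by norm_num) (by linarith)
  have hδη : 10 * δ < η := by
    rw [hδd, mul_one_div, div_lt_iff₀ (by positivity)]
    rw [div_le_iff₀ hη] at hr
    nlinarith
  obtain ⟨s, hs⟩ := exists_nat_one_div_lt (show 0 < a - (2 + 2 / c) by linarith)
  set b : ℝ := 2 + 2 / c + 1 / ((s:ℝ) + 1) with hb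
  have hba : b ≤ a := by rw [hb]; linarith
  have hb0 : 0 ≤ b := by rw [hb]; positivity
  obtain ⟨i₂, hi₂⟩ := eventually_atTop.1 ((hω r s).and
    (tendsto_natCast_atTop_atTop.eventually_ge_atTop (3 / δ)))
  have hlog : ∀ᶠ x : ℝ in atTop, Real.log x ^ a ≤ x := by
    have h1 : (fun x : ℝ => Real.log x ^ a) =o[atTop] (fun x : ℝ => x ^ (1:ℝ)) :=
      isLittleO_log_rpow_rpow_atTop a one_pos
    have h2 := h1.bound (show (0:ℝ) < 1 by norm_num)
    filter_upwards [h2, eventually_ge_atTop (1:ℝ)] with x h3 h4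
    rw [Real.rpow_one, one_mul, Real.norm_of_nonneg (by linarith : 0 ≤ x)] at h3
    exact (le_abs_self _).trans h3
  filter_upwards [eventually_ge_atTop ((2:ℝ) ^ (i₂ + 1)), hlog,
    eventually_ge_atTop (Real.exp 1)] with x hx hxH hxe
  have hx0 : 0 < x := lt_of_lt_of_le (by positivity) hx
  have hlx : 1 ≤ Real.log x := by
    rw [Real.le_log_iff_exp_le hx0]
    exact hxe
  have hx1' : 1 ≤ x := le_trans (Real.one_le_exp (by norm_num)) hxe
  have hfl : 2 ^ (i₂ + 1) ≤ ⌊x⌋₊ := by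
    apply Nat.le_floor
    push_cast
    exact hx
  set i : ℕ := Nat.log 2 ⌊x⌋₊ with hi
  have hfl0 : ⌊x⌋₊ ≠ 0 := by
    have : 0 < 2 ^ (i₂ + 1) := by positivity
    omega
  have hii : i₂ + 1 ≤ i := Nat.le_log_of_pow_le (by norm_num) hfl
  have hx1 : (2:ℝ) ^ i ≤ x := by
    have h1 : 2 ^ i ≤ ⌊x⌋₊ := Nat.pow_log_le_self 2 hfl0
    have h2 : ((2:ℝ) ^ i) ≤ (⌊x⌋₊ : ℝ) := by exact_mod_cast h1
    exact h2.trans (Nat.floor_le hx0.le)
  have hx2 : x < 2 ^ (i + 1) := by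
    have h1 : ⌊x⌋₊ < 2 ^ (i + 1) := Nat.lt_pow_succ_log_self (by norm_num) _
    rw [Nat.floor_lt hx0.le] at h1
    push_cast at h1
    exact h1
  obtain ⟨⟨g, g1, g2, g3, g4⟩, g5⟩ := hi₂ i (by omega)
  have hil : (i:ℝ) * Real.log 2 ≤ Real.log x := by
    rw [← Real.log_pow]
    exact Real.log_le_log (by positivity) hx1
  have hgH : (g : ℝ) ≤ δ * Real.log x ^ a := by
    refine g3.trans (mul_le_mul_of_nonneg_left ?_ hδ.le)
    calc ((i:ℝ) * Real.log 2) ^ b ≤ Real.log x ^ b :=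
          Real.rpow_le_rpow (by positivity) hil hb0
      _ ≤ Real.log x ^ a := Real.rpow_le_rpow_of_exponent_le hlx hba
  have key := det_count (c := fun n => (E n).indicator (fun _ => (1:ℝ)) ω)
    (fun n => Set.indicator_nonneg (fun _ _ => zero_le_one) _) g1 g2 hδ hδ1 g5
    (fun j hj1 hj2 => g4 j hj1 hj2) hx1 hx2 hgH hxH
  rw [Real.dist_eq, R_eq E ω hx1']
  exact lt_of_le_of_lt key hδη

end Pool.Agent.H26.OS
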