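import Pool.Agent.H26.OS.Stm

/-! # OS-WIN (helper58): laws on the windows -/

set_option autoImplicit false

namespace Pool.Agent.H26.OS

open Finset MeasureTheory Filter Topology Q198.CI Pool.Agent.H50.OI

/-- the law with a prescribed distribution of the number of elements -/
theorem win_law {I : Finset ℕ} {H : ℕ} (hI : I.card = H) {q : ℕ → ℝ} (hq : ∀ x, 0 ≤ q x) {K : ℕ}
    {p : ℝ} (hm : ∀ j ≤ K, ∑ x ∈ range (H + 1), q x * (x.choose j : ℝ) = (H.choose j : ℝ) * p ^ j)
    (y : ℕ) (hy : y ≤ H) (G : Finset ℕ → Prop) (hG : ∀ A : Finset ℕ, A.card = y → G A) :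
    ∃ w : Finset ℕ → ℝ, IsLaw I K (fun _ => p) w ∧ q y ≤ mass I w G ∧ q 0 ≤ w ∅ := by
  classical
  refine ⟨fun S => q S.card / (H.choose S.card : ℝ), law_of_q hI hq hm, ?_, ?_⟩
  · unfold mass
    have h1 : ∑ A ∈ I.powersetCard y, q y / (H.choose y : ℝ) = q y := by
      rw [sum_const, card_powersetCard, hI, nsmul_eq_mul]
      have : (0 : ℝ) < (H.choose y : ℝ) := by exact_mod_cast Nat.choose_pos hy
      field_simp
    rw [← h1]
    have h2 : ∑ A ∈ I.powersetCard y, q y / (H.choose y : ℝ) =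
        ∑ A ∈ I.powersetCard y, if G A then q A.card / (H.choose A.card : ℝ) else 0 := by
      refine sum_congr rfl fun A hA => ?_
      have h3 := (mem_powersetCard.1 hA).2
      rw [if_pos (hG A h3), h3]
    rw [h2]
    refine sum_le_sum_of_subset_of_nonneg ?_ ?_
    · intro A hA
      exact mem_powerset.2 (mem_powersetCard.1 hA).1
    · intro A _ _
      split_ifs
      · exact div_nonneg (hq _) (Nat.cast_nonneg _)
      · exact le_refl _
  · simp

theorem win (hQ : S_QAT) (hN : S_NUM) (hT : S_THK) : S_WIN := by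
  classical
  obtain ⟨C, hC, hq⟩ := hQ
  intro c a M hc ha hca hM
  have hnum := hN c a C (2 * M) hc ha hca hC (by linarith)
  have hev1 : ∀ᶠ i : ℕ in atTop, 100 * (c * Real.log 2 + 1) ≤ (i : ℝ) ^ (a - 2) :=
    ((tendsto_rpow_atTop (by linarith : 0 < a - 2)).comp
      tendsto_natCast_atTop_atTop).eventually_ge_atTop _
  filter_upwards [hnum, hev1, eventually_ge_atTop 8, eventually_ge_atTop ⌈4 * M⌉₊]
    with i hi1 hi2 hi3 hi4
  have hl2 : 0.6931471803 < Real.log 2 := Real.log_two_gt_d9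
  have hl2u : Real.log 2 < 0.6931471808 := Real.log_two_lt_d9
  have hl0 : 0 < Real.log 2 := by linarith
  have hi8 : (8 : ℝ) ≤ i := by exact_mod_cast hi3
  have hiM : 4 * M ≤ (i : ℝ) := (Nat.le_ceil _).trans (by exact_mod_cast hi4)
  have hi0 : (0 : ℝ) < i := by linarith
  have hlogi : 1 ≤ Real.log i := by
    have h1 : Real.log 8 ≤ Real.log i := Real.log_le_log (by norm_num) hi8
    have h2 : Real.log 8 = 3 * Real.log 2 := by
      rw [show (8 : ℝ) = 2 ^ 3 by norm_num, Real.log_pow]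
      norm_num
    linarith
  set H : ℕ := ⌈(i : ℝ) ^ a⌉₊ with hH
  set K : ℕ := ⌈c * ((i : ℝ) * Real.log 2 / Real.log i)⌉₊ with hK
  set N : ℕ := 2 ^ i / H with hNN
  have hia1 : 1 ≤ (i : ℝ) ^ a := Real.one_le_rpow (by linarith) (by linarith)
  have hH1 : (i : ℝ) ^ a ≤ H := Nat.le_ceil _
  have hH2 : (H : ℝ) < (i : ℝ) ^ a + 1 := Nat.ceil_lt_add_one (by linarith)
  have hH3 : (H : ℝ) ≤ 2 * (i : ℝ) ^ a := by linarith
  have hHpos : (0 : ℝ) < H := by linarith
  have hHpos' : 0 < H := by exact_mod_cast hHpos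
  have hK0 : 0 < c * ((i : ℝ) * Real.log 2 / Real.log i) := by positivity
  have hK1 : c * ((i : ℝ) * Real.log 2 / Real.log i) ≤ K := Nat.le_ceil _
  have hK2 : (K : ℝ) ≤ c * ((i : ℝ) * Real.log 2 / Real.log i) + 1 :=
    (Nat.ceil_lt_add_one hK0.le).le
  have hKpos : 0 < K := by
    have : (0 : ℝ) < K := hK0.trans_le hK1
    exact_mod_cast this
  -- the two probabilities
  set p1 : ℝ := 1 / ((i : ℝ) * Real.log 2) with hp1
  set p2 : ℝ := 1 / (((i : ℝ) + 1) * Real.log 2) with hp2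
  have hp1pos : 0 < p1 := by positivity
  have hp2pos : 0 < p2 := by positivity
  have hp21 : p2 ≤ p1 := by
    rw [hp1, hp2]
    apply one_div_le_one_div_of_le (by positivity)
    nlinarith
  have hp14 : p1 ≤ 1 / 4 := by
    rw [hp1]
    apply one_div_le_one_div_of_le (by norm_num)
    nlinarith
  have hp24 : p2 ≤ 1 / 4 := hp21.trans hp14
  have hp2i : 1 / (i : ℝ) ≤ p2 := by
    rw [hp2]
    apply one_div_le_one_div_of_le (by positivity)
    nlinarith
  have hia : (i : ℝ) ^ a = (i : ℝ) ^ (a - 2) * (i : ℝ) ^ (2 : ℕ) := by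
    rw [← Real.rpow_natCast, ← Real.rpow_add hi0]
    norm_num
  have hKH : 100 * (K : ℝ) ≤ H * p2 := by
    have h1 : c * ((i : ℝ) * Real.log 2 / Real.log i) ≤ c * ((i : ℝ) * Real.log 2) := by
      apply mul_le_mul_of_nonneg_left _ hc.le
      exact div_le_self (by positivity) hlogi
    have h2 : (K : ℝ) ≤ (c * Real.log 2 + 1) * i := by nlinarith
    have h3 : (H : ℝ) / i ≤ H * p2 := by
      rw [div_eq_mul_one_div]
      exact mul_le_mul_of_nonneg_left hp2i hHpos.le
    have h4 : (i : ℝ) ^ (a - 2) * i ≤ (H : ℝ) / i := by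
      rw [le_div_iff₀ hi0]
      calc (i : ℝ) ^ (a - 2) * i * i = (i : ℝ) ^ a := by rw [hia]; ring
        _ ≤ H := hH1
    calc 100 * (K : ℝ) ≤ 100 * ((c * Real.log 2 + 1) * i) := by linarith
      _ = 100 * (c * Real.log 2 + 1) * i := by ring
      _ ≤ (i : ℝ) ^ (a - 2) * i := mul_le_mul_of_nonneg_right hi2 hi0.le
      _ ≤ H * p2 := h4.trans h3
  have hKH1 : 100 * (K : ℝ) ≤ H * p1 := hKH.trans (mul_le_mul_of_nonneg_left hp21 hHpos.le)
  have hn1 := hi1 H K p1 hHpos' hH3 hp1pos le_rfl hK1 hK2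
  have hn2 := hi1 H K p2 hHpos' hH3 hp2pos hp21 hK1 hK2
  rw [← hNN] at hn1 hn2
  have hN0 : (0 : ℝ) < N := by
    rcases Nat.eq_zero_or_pos N with h0 | h0
    · rw [h0] at hn1
      simp at hn1
      linarith
    · exact_mod_cast h0
  set δ : ℝ := i / N with hδ
  refine ⟨H, N, K, δ, hHpos', hH1, Nat.div_mul_le_self _ _, hK1, by positivity, ?_, ?_⟩
  · rw [hδ]
    field_simp
    exact le_refl _
  intro s hs1 hs2
  have hcard : (Ico s (s + H)).card = H := by simp
  have hmem : ∀ n ∈ Ico s (s + H), 3 ≤ n ∧ (2 : ℝ) ^ i ≤ n ∧ (n : ℝ) ≤ 2 ^ (i + 1) := by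
    intro n hn
    rw [mem_Ico] at hn
    have h1 : 2 ^ i ≤ n := hs1.trans hn.1
    have h2 : n ≤ 2 ^ (i + 1) := by omega
    have h3 : i < 2 ^ i := Nat.lt_two_pow_self
    refine ⟨by omega, by exact_mod_cast h1, by exact_mod_cast h2⟩
  have hcp1 : ∀ n ∈ Ico s (s + H), cp n ≤ p1 := by
    intro n hn
    obtain ⟨h1, h2, -⟩ := hmem n hn
    unfold cp
    rw [if_pos h1, hp1]
    apply one_div_le_one_div_of_le (by positivity)
    rw [← Real.log_pow]
    exact Real.log_le_log (by positivity) h2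
  have hcp2 : ∀ n ∈ Ico s (s + H), p2 ≤ cp n := by
    intro n hn
    obtain ⟨h1, h2, h3⟩ := hmem n hn
    unfold cp
    rw [if_pos h1, hp2]
    have h4 : (0 : ℝ) < n := lt_of_lt_of_le (by positivity) h2
    have h5 : (1 : ℝ) < n := by
      have : (3 : ℝ) ≤ n := by exact_mod_cast h1
      linarith
    apply one_div_le_one_div_of_le (Real.log_pos h5)
    have h6 := Real.log_le_log h4 h3
    rw [Real.log_pow] at h6
    push_cast at h6
    exact h6
  constructor
  · obtain ⟨q, hq0, hqm, hqy⟩ := hq H K 0 p1 (2 * M) hp1pos hp14 hKpos hKH1 (by linarith)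
      (by simp only [Nat.cast_zero]; positivity) (Nat.zero_le _)
    obtain ⟨w, hw1, -, hw3⟩ := win_law hcard hq0 hqm 0 (Nat.zero_le _) (fun _ => True)
      (fun _ _ => trivial)
    obtain ⟨w', hw'1, hw'2⟩ := thin hw1 hp1pos (p' := cp) (fun n _ => cp_nonneg n) hcp1
    refine ⟨w', hw'1, ?_⟩
    have h1 : w' ∅ ≤ mass (Ico s (s + H)) w' (fun A => A = ∅) := by
      unfold mass
      have h2 := single_le_sum (f := fun A : Finset ℕ => if A = ∅ then w' A else 0)
        (s := (Ico s (s + H)).powerset) (fun A hA => by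
          split_ifs
          · exact hw'1.1 A (mem_powerset.1 hA)
          · exact le_refl _) (mem_powerset.2 (empty_subset _))
      simp only [if_true] at h2
      refine h2.trans (le_of_eq ?_)
      exact sum_congr rfl fun A _ => by congr
    refine le_trans ?_ h1
    refine le_trans ?_ hw'2
    refine le_trans ?_ hw3
    refine le_trans ?_ hqy
    rw [hδ, div_le_iff₀ hN0]
    linarith
  · set y : ℕ := ⌈M * (H * p2)⌉₊ with hy
    have hHp : 100 ≤ (H : ℝ) * p2 := by
      have : (1 : ℝ) ≤ K := by exact_mod_cast hKpos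
      linarith
    have hMH : 1 ≤ M * (H * p2) := by nlinarith
    have hy1 : M * (H * p2) ≤ y := Nat.le_ceil _
    have hy2 : (y : ℝ) < M * (H * p2) + 1 := Nat.ceil_lt_add_one (by linarith)
    have hy3 : (y : ℝ) ≤ 2 * M * (H * p2) := by linarith
    have hHge : (4 : ℝ) ≤ H := by
      have : (H : ℝ) * p2 ≤ H * (1 / 4) := mul_le_mul_of_nonneg_left hp24 hHpos.le
      linarith
    have hMp : M * p2 ≤ 1 / 2 := by
      rw [hp2, mul_one_div, div_le_iff₀ (by positivity)]
      nlinarith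
    have hy4 : y ≤ H := by
      have h1 : M * (H * p2) ≤ H / 2 := by
        calc M * (H * p2) = H * (M * p2) := by ring
          _ ≤ H * (1 / 2) := mul_le_mul_of_nonneg_left hMp hHpos.le
          _ = H / 2 := by ring
      have h2 : (y : ℝ) < H := by linarith
      exact_mod_cast h2.le
    obtain ⟨q, hq0, hqm, hqy⟩ := hq H K y p2 (2 * M) hp2pos hp24 hKpos hKH (by linarith)
      hy3 hy4
    obtain ⟨w, hw1, hw2, -⟩ := win_law hcard hq0 hqm y hy4
      (fun A : Finset ℕ => M * H ≤ i * (A.card : ℝ)) (fun A hA => by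
        rw [hA]
        have h1 : (H : ℝ) / i ≤ H * p2 := by
          rw [div_eq_mul_one_div]
          exact mul_le_mul_of_nonneg_left hp2i hHpos.le
        calc M * (H : ℝ) = i * (M * (H / i)) := by field_simp
          _ ≤ i * (M * (H * p2)) :=
              mul_le_mul_of_nonneg_left (mul_le_mul_of_nonneg_left h1 (by linarith)) hi0.le
          _ ≤ i * y := mul_le_mul_of_nonneg_left hy1 hi0.le)
    obtain ⟨w', hw'1, hw'2⟩ := hT (Ico s (s + H)) (Ico s (s + H)) K (fun _ => p2) cp w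
      (Subset.refl _) hw1 (fun n hn => ⟨by linarith, hcp2 n hn⟩)
      (fun n _ => ⟨cp_nonneg n, cp_le_one n⟩)
    refine ⟨w', hw'1, ?_⟩
    refine le_trans ?_ (hw'2 _ ?_)
    · refine le_trans ?_ hw2
      refine le_trans ?_ hqy
      rw [hδ, div_le_iff₀ hN0]
      linarith
    · intro A B hAB hA
      have h1 : (A.card : ℝ) ≤ B.card := by exact_mod_cast card_le_card hAB
      refine hA.trans ?_
      exact mul_le_mul_of_nonneg_left h1 hi0.le

end Pool.Agent.H26.OS
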